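import Pool.Agent.H37.S3.CI

/-!
# Conditional independence and laws

If `H (A | B, Z) = H (A | Z)` then `A` and `B` are conditionally independent given `Z` (equality
case of the Gibbs inequality).
-/

set_option autoImplicit false

namespace Pool.KS3

open Finset Real
open Pool.Agent.H49.Ent Pool.Agent.H32.Dense Pool.STK Pool.KAF Pool.KAL

section

variable {Ω S T U : Type} [Fintype Ω] {p : Ω → ℝ}

/-- Sums of a joint law over part of the values of the first variable. -/
lemma sum_law_pair_le (hp : ∀ ω, 0 ≤ p ω) (X : Ω → S) (Y : Ω → T) (F : Finset S) (y : T) :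
    ∑ a ∈ F, law p (fun ω => (X ω, Y ω)) (a, y) ≤ law p Y y := by
  classical
  unfold law
  rw [Finset.sum_comm]
  refine Finset.sum_le_sum fun ω _ => ?_
  by_cases h : Y ω = y
  · rw [if_pos h]
    have h2 : ∑ a ∈ F, (if a = X ω then p ω else 0) ≤ p ω := by
      rw [Finset.sum_ite_eq']
      split_ifs
      · exact le_rfl
      · exact hp ω
    refine le_trans (Finset.sum_le_sum fun a _ => ?_) h2
    by_cases h2 : a = X ω
    · rw [if_pos h2]
      split_ifs
      · exact le_rfl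
      · exact hp ω
    · rw [if_neg h2, if_neg]
      intro h3
      exact h2 (Prod.ext_iff.mp h3).1.symm
  · rw [if_neg h]
    refine le_of_eq (Finset.sum_eq_zero fun a _ => ?_)
    rw [if_neg]
    intro h3
    exact h (Prod.ext_iff.mp h3).2

/-- Conditional independence in terms of laws, on the support. -/
lemma CI.law_eq (hp : IsLaw p) {A : Ω → S} {B : Ω → T} {Z : Ω → U} (h : CI p A B Z) {ω : Ω}
    (hω : 0 < p ω) :
    law p (fun ω => (A ω, (B ω, Z ω))) (A ω, (B ω, Z ω)) / law p (fun ω => (B ω, Z ω)) (B ω, Z ω) =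
      law p (fun ω => (A ω, Z ω)) (A ω, Z ω) / law p Z (Z ω) := by
  classical
  have hp0 := hp.nonneg
  set k₁ : Ω → ℝ := fun ω => law p (fun ω => (A ω, (B ω, Z ω))) (A ω, (B ω, Z ω)) /
    law p (fun ω => (B ω, Z ω)) (B ω, Z ω) with hk₁
  set k₂ : Ω → ℝ := fun ω => law p (fun ω => (A ω, Z ω)) (A ω, Z ω) / law p Z (Z ω) with hk₂
  have e1 : CH p A (fun ω => (B ω, Z ω)) = Ex p (fun ω => -Real.log (k₁ ω)) :=
    CH_eq_neg_sum hp0 A (fun ω => (B ω, Z ω))
  have e2 : CH p A Z = Ex p (fun ω => -Real.log (k₂ ω)) := CH_eq_neg_sum hp0 A Z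
  have hk₁p : ∀ ω, 0 < p ω → 0 < k₁ ω := fun ω h0 =>
    div_pos (law_pos hp0 _ h0) (law_pos hp0 _ h0)
  have hk₂p : ∀ ω, 0 < p ω → 0 < k₂ ω := fun ω h0 =>
    div_pos (law_pos hp0 _ h0) (law_pos hp0 _ h0)
  have e3 := CH_le_cross hp0 hp.sum_one A (fun ω => (B ω, Z ω))
    (fun t a => (law p (fun ω => (A ω, (B ω, Z ω))) (a, t) / law p (fun ω => (B ω, Z ω)) t +
      law p (fun ω => (A ω, Z ω)) (a, t.2) / law p Z t.2) / 2)
    (by
      intro v hv
      have a1 := hk₁p v hv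
      have a2 := hk₂p v hv
      simp only [hk₁, hk₂] at a1 a2
      positivity)
    (by
      intro t a
      have a1 := law_nonneg hp0 (fun ω => (A ω, (B ω, Z ω))) (a, t)
      have a2 := law_nonneg hp0 (fun ω => (B ω, Z ω)) t
      have a3 := law_nonneg hp0 (fun ω => (A ω, Z ω)) (a, t.2)
      have a4 := law_nonneg hp0 Z t.2
      positivity)
    (by
      intro v hv F
      have a1 := sum_law_pair_le hp0 A (fun ω => (B ω, Z ω)) F (B v, Z v)
      have a2 := sum_law_pair_le hp0 A Z F (Z v)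
      have a3 := law_pos hp0 (fun ω => (B ω, Z ω)) hv
      have a4 := law_pos hp0 Z hv
      rw [← Finset.sum_div, Finset.sum_add_distrib, ← Finset.sum_div, ← Finset.sum_div]
      have b1 := (div_le_one a3).mpr a1
      have b2 := (div_le_one a4).mpr a2
      linarith)
  have e4 : CH p A (fun ω => (B ω, Z ω)) ≤ Ex p (fun ω => -Real.log ((k₁ ω + k₂ ω) / 2)) := e3
  unfold CI at h
  have e5 : Ex p (fun ω => -Real.log ((k₁ ω + k₂ ω) / 2)) ≤
      Ex p (fun ω => (1 / 2 : ℝ) * -Real.log (k₁ ω) + (1 / 2 : ℝ) * -Real.log (k₂ ω)) := by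
    refine Ex_mono hp0 fun v hv => ?_
    have a1 := hk₁p v hv
    have a2 := hk₂p v hv
    have a3 : Real.log (k₁ v * k₂ v) ≤ Real.log (((k₁ v + k₂ v) / 2) ^ 2) := by
      refine Real.log_le_log (by positivity) ?_
      nlinarith [sq_nonneg (k₁ v - k₂ v)]
    rw [Real.log_mul a1.ne' a2.ne', Real.log_pow] at a3
    push_cast at a3
    linarith
  have e6 : Ex p (fun ω => (1 / 2 : ℝ) * -Real.log (k₁ ω) + (1 / 2 : ℝ) * -Real.log (k₂ ω)) =
      CH p A (fun ω => (B ω, Z ω)) := by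
    rw [Ex_add, Ex_smul, Ex_smul, ← e1, ← e2, h]
    ring
  have e7 : Ex p (fun ω => ((1 / 2 : ℝ) * -Real.log (k₁ ω) + (1 / 2 : ℝ) * -Real.log (k₂ ω)) -
      -Real.log ((k₁ ω + k₂ ω) / 2)) = 0 := by
    rw [Ex_sub, e6]
    linarith
  have e8 : ∀ v ∈ (univ : Finset Ω), 0 ≤ p v * (((1 / 2 : ℝ) * -Real.log (k₁ v) +
      (1 / 2 : ℝ) * -Real.log (k₂ v)) - -Real.log ((k₁ v + k₂ v) / 2)) := by
    intro v _
    rcases (hp0 v).eq_or_lt with h0 | hv
    · rw [← h0, zero_mul]
    · refine mul_nonneg hv.le ?_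
      have a1 := hk₁p v hv
      have a2 := hk₂p v hv
      have a3 : Real.log (k₁ v * k₂ v) ≤ Real.log (((k₁ v + k₂ v) / 2) ^ 2) := by
        refine Real.log_le_log (by positivity) ?_
        nlinarith [sq_nonneg (k₁ v - k₂ v)]
      rw [Real.log_mul a1.ne' a2.ne', Real.log_pow] at a3
      push_cast at a3
      linarith
  unfold Ex at e7
  have e9 := (Finset.sum_eq_zero_iff_of_nonneg e8).mp e7 ω (Finset.mem_univ ω)
  rcases mul_eq_zero.mp e9 with h0 | h0
  · exact absurd h0 hω.ne'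
  · have a1 := hk₁p ω hω
    have a2 := hk₂p ω hω
    have a3 : Real.log (((k₁ ω + k₂ ω) / 2) ^ 2) = Real.log (k₁ ω * k₂ ω) := by
      rw [Real.log_mul a1.ne' a2.ne', Real.log_pow]
      push_cast
      linarith
    have a4 : ((k₁ ω + k₂ ω) / 2) ^ 2 = k₁ ω * k₂ ω :=
      Real.log_injOn_pos (Set.mem_Ioi.mpr (by positivity)) (Set.mem_Ioi.mpr (by positivity)) a3
    have a5 : (k₁ ω - k₂ ω) ^ 2 = 0 := by nlinarith
    have a6 : k₁ ω - k₂ ω = 0 := by
      exact pow_eq_zero_iff (two_ne_zero) |>.mp a5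
    show k₁ ω = k₂ ω
    linarith

/-- Conditional independence: an upper bound for the joint law. -/
lemma CI.law_le (hp : IsLaw p) {A : Ω → S} {B : Ω → T} {Z : Ω → U} (h : CI p A B Z) (a : S)
    (b : T) (z : U) :
    law p (fun ω => (A ω, (B ω, Z ω))) (a, (b, z)) * law p Z z ≤
      law p (fun ω => (A ω, Z ω)) (a, z) * law p (fun ω => (B ω, Z ω)) (b, z) := by
  classical
  have hp0 := hp.nonneg
  by_cases hex : ∃ ω, 0 < p ω ∧ A ω = a ∧ B ω = b ∧ Z ω = z
  · obtain ⟨ω, hω, rfl, rfl, rfl⟩ := hex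
    have h1 := h.law_eq hp hω
    have a3 := law_pos hp0 (fun ω => (B ω, Z ω)) hω
    have a4 := law_pos hp0 Z hω
    rw [div_eq_div_iff a3.ne' a4.ne'] at h1
    exact h1.le
  · push Not at hex
    have h0 : law p (fun ω => (A ω, (B ω, Z ω))) (a, (b, z)) = 0 := by
      unfold law
      refine Finset.sum_eq_zero fun ω _ => ?_
      by_cases h2 : (A ω, (B ω, Z ω)) = (a, (b, z))
      · rw [if_pos h2]
        simp only [Prod.mk.injEq] at h2
        rcases (hp0 ω).eq_or_lt with h0 | h0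
        · exact h0.symm
        · exact absurd h2.2.2 (hex ω h0 h2.1 h2.2.1)
      · rw [if_neg h2]
    rw [h0, zero_mul]
    exact mul_nonneg (law_nonneg hp0 _ _) (law_nonneg hp0 _ _)

end

end Pool.KS3
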