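import Pool.Agent.H45.KAL.MKC
import Pool.Agent.H45.KAL.CIL
import Pool.Agent.H37.S3.Stmts

/-!
# Fullness and mixing on a leaf

(3.8) and (3.7) of `K3_S3.md`.
-/

set_option autoImplicit false

namespace Pool.KS3

open Finset Real
open Pool.Agent.H49.Ent Pool.Agent.H32.Dense Pool.STK Pool.KAF Pool.KAL

/-- The base velocities of the lines through a point are not concentrated near hyperplanes: the
conditional probability given the point `ξ` of a slab of width `δ` is at most `e ξ`. -/
def NCF {n : ℕ} {Ω Λ Ξ : Type} [Fintype Ω] (p : Ω → ℝ) (lam : Ω → Λ) (x : Ω → Ξ)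
    (B : Λ → Option (Fin n) → ℝ) (δ : ℝ) (e : Ξ → ℝ) : Prop :=
  ∀ ω, 0 < p ω → ∀ u : Fin n → ℝ, (∃ i, 1 ≤ |u i|) →
    ∑ ω', (open Classical in
      if x ω' = x ω ∧ |∑ i, u i * B (lam ω') (some i)| ≤ δ then p ω' else 0) ≤
      e (x ω) * law p x (x ω)

/-- Row FULL, (3.8). -/
def FULLStmt : Prop :=
  ∀ (n : ℕ) (C₀ : ℝ), 1 ≤ C₀ → ∃ C : ℝ, 0 ≤ C ∧
    ∀ (Ω Λ Ξ : Type) [Fintype Ω] (p : Ω → ℝ) (lam : Ω → Λ) (x : Ω → Ξ) (T : Ξ → ℕ)
      (pos : Ξ → Option (Fin n) → ℕ) (A B : Λ → Option (Fin n) → ℝ) (K R L κ γ : ℕ)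
      (δ ε e₁ : ℝ) (e : Ξ → ℝ),
      2 ^ L = K * R → 1 ≤ K →
      Leaf n (2 ^ L) C₀ p lam x T pos A B → 0 < δ → (∀ a, 0 ≤ e a) →
      Ex p (fun ω => e (x ω)) ≤ ε → NCF p lam x B δ e →
      n.factorial * C₀ ^ n ≤ δ ^ n * 2 ^ γ → 1 ≤ κ →
      L * Real.log 2 - CH p (fun ω => T (x ω)) lam ≤ e₁ →
      n * Real.log R - CH p (fun ω => bas pos (x ω)) (fun ω => cel R pos (x ω)) ≤
        n * e₁ + C * (L / κ + γ + κ + 1 + ε * L)

/-- Row MIX, (3.7). -/
def MIXStmt : Prop :=
  ∀ (n : ℕ) (C₀ : ℝ), 1 ≤ C₀ → ∃ C : ℝ, 0 ≤ C ∧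
    ∀ (Ω Λ Ξ W : Type) [Fintype Ω] [Fintype W] (p : Ω → ℝ) (lam : Ω → Λ) (x : Ω → Ξ)
      (T : Ξ → ℕ) (pos : Ξ → Option (Fin n) → ℕ) (A B : Λ → Option (Fin n) → ℝ) (L κ γ N : ℕ)
      (q : W → ℝ) (o o' : ℕ → W → Ω) (l : ℕ → W → Λ) (y : ℕ → W → Ξ) (δ ε e₁ e₃ : ℝ)
      (e : Ξ → ℝ),
      Leaf n (2 ^ L) C₀ p lam x T pos A B → IsChain p lam x N q o o' l y →
      0 < δ → (∀ a, 0 ≤ e a) → Ex p (fun ω => e (x ω)) ≤ ε → NCF p lam x B δ e →
      n.factorial * C₀ ^ n ≤ δ ^ n * 2 ^ γ → 1 ≤ κ →
      L * Real.log 2 - CH p (fun ω => T (x ω)) lam ≤ e₁ → 0 ≤ e₁ → 0 ≤ e₃ →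
      H p x ≤ n * (L * Real.log 2) + e₃ →
      H p x - CH q (y N) (y 0) ≤ (1 - 1 / n) ^ N * (n * (L * Real.log 2) + e₃) +
        (n * e₁ + e₃ + C * (L / κ + γ + κ + 1 + ε * L))

/-- Integer parts of quotients. -/
lemma div_diff {a b R : ℕ} {D : ℝ} (hR : 0 < R) (h : |(a : ℝ) - b| ≤ D * R) :
    |((((a / R : ℕ) : ℤ) - ((b / R : ℕ) : ℤ) : ℤ) : ℝ)| ≤ D + 1 := by
  have c1 := Nat.div_add_mod a R
  have c2 := Nat.div_add_mod b R
  have c3 := Nat.mod_lt a hR
  have c4 := Nat.mod_lt b hR
  have hR' : (0 : ℝ) < R := by exact_mod_cast hR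
  have c5 : (a : ℝ) = R * ((a / R : ℕ) : ℝ) + ((a % R : ℕ) : ℝ) := by exact_mod_cast c1.symm
  have c6 : (b : ℝ) = R * ((b / R : ℕ) : ℝ) + ((b % R : ℕ) : ℝ) := by exact_mod_cast c2.symm
  have c7 : ((a % R : ℕ) : ℝ) ≤ R := by exact_mod_cast c3.le
  have c8 : ((b % R : ℕ) : ℝ) ≤ R := by exact_mod_cast c4.le
  have c9 : (0 : ℝ) ≤ ((a % R : ℕ) : ℝ) := Nat.cast_nonneg _
  have c10 : (0 : ℝ) ≤ ((b % R : ℕ) : ℝ) := Nat.cast_nonneg _
  rw [c5, c6] at h
  have h1 : R * |((a / R : ℕ) : ℝ) - ((b / R : ℕ) : ℝ)| ≤ R * (D + 1) := by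
    rw [← abs_of_pos hR', ← abs_mul, abs_of_pos hR']
    rw [abs_le] at h ⊢
    constructor <;> nlinarith [h.1, h.2]
  have h2 := le_of_mul_le_mul_left h1 hR'
  push_cast
  push_cast at h2
  exact h2

theorem full_thm : FULLStmt := by
  classical
  intro n C₀ hC₀
  obtain ⟨C₁, hC₁, hmkc⟩ := mkc_thm n C₀ hC₀
  have hl2 : 0 < Real.log 2 := Real.log_pos (by norm_num)
  have hn0 : (0 : ℝ) ≤ n := Nat.cast_nonneg n
  -- constants for the number of cubes met by a line
  set C₂ : ℝ := (n + 1) * Real.log (2 * (3 * C₀ + 1) + 1) + Real.log 3 with hC₂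
  have hC₂0 : 0 ≤ C₂ := by
    have h1 : 0 ≤ Real.log (2 * (3 * C₀ + 1) + 1) := Real.log_nonneg (by linarith only [hC₀])
    have h2 : 0 ≤ Real.log 3 := Real.log_nonneg (by norm_num)
    positivity
  refine ⟨C₁ + n * C₂, by positivity, ?_⟩
  intro Ω Λ Ξ _ p lam x T pos A B K R L κ γ δ ε e₁ e hKR hK hleaf hδ he hex hnc hγ hκ he₁
  have hp := hleaf.isLaw
  have hp0 := hp.nonneg
  have hL0 : (0 : ℝ) ≤ L := Nat.cast_nonneg L
  have hκ0 : (1 : ℝ) ≤ κ := by exact_mod_cast hκ
  have hε : 0 ≤ ε := le_trans (Ex_nonneg hp0 fun ω _ => he (x ω)) hex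
  have hM : ((2 ^ L : ℕ) : ℝ) = 2 ^ L := by push_cast; rfl
  have hR : 1 ≤ R := by
    rcases Nat.eq_zero_or_pos R with h | h
    · rw [h, mul_zero] at hKR
      exact absurd hKR (by positivity)
    · exact h
  have hK' : (0 : ℝ) < K := by exact_mod_cast hK
  have hR' : (0 : ℝ) < R := by exact_mod_cast hR
  have hKR' : (2 : ℝ) ^ L = K * R := by exact_mod_cast hKR
  have h1 := hmkc Ω (Option (Fin n) → ℕ) Λ Ξ p L κ γ δ ε x e (fun ω => bas pos (x ω))
    (fun ω => T (x ω)) (fun ω => cel R pos (x ω)) lam (fun a i => A a (some i))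
    (fun a i => B a (some i)) hp hleaf.T_lt
    (fun ω ω' _ _ h => by simp only at h ⊢; rw [h])
    (fun ω ω' _ _ h => by simp only at h ⊢; rw [h])
    (fun ω ω' _ _ h => by simp only at h ⊢; rw [h])
    (by
      intro ω _ i
      have := hleaf.near ω (some i)
      rw [hM] at this
      exact this)
    (fun ω i => hleaf.B_le ω (some i)) hδ he hex hnc hγ hκ
  -- the cubes met by a line
  have hcell : CH p (fun ω => cel R pos (x ω)) lam ≤ Real.log K + C₂ := by
    set tb : Ω → ℤ := fun ω => ((T (x ω) / R : ℕ) : ℤ) with htb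
    have a1 := CH_le_add hp0 (fun ω => cel R pos (x ω)) tb lam
    have a2 : CH p tb lam ≤ Real.log K := by
      have b1 := CH_le_card hp0 hp.sum_one tb lam
        (fun _ => (Finset.range K).image fun k : ℕ => (k : ℤ)) (by
          intro ω _
          rw [Finset.mem_image]
          refine ⟨T (x ω) / R, ?_, rfl⟩
          rw [Finset.mem_range, Nat.div_lt_iff_lt_mul (by omega), ← hKR]
          exact hleaf.T_lt ω)
      rw [Ex_const hp.sum_one, Finset.card_image_of_injective _ Nat.cast_injective,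
        Finset.card_range] at b1
      exact b1
    have a3 : CH p (fun ω => cel R pos (x ω)) (fun ω => (tb ω, lam ω)) ≤
        (n + 1) * Real.log (2 * (3 * C₀ + 1) + 1) := by
      -- transfer to integer vectors indexed by `Fin (n + 1)`
      set v : Ω → Fin (n + 1) → ℤ := fun ω k =>
        ((cel R pos (x ω) (Fin.cases none (fun i => some i) k) : ℕ) : ℤ) with hv
      have b1 : CH p (fun ω => cel R pos (x ω)) (fun ω => (tb ω, lam ω)) ≤
          CH p v (fun ω => (tb ω, lam ω)) := by
        refine CH_mono_left hp0 ?_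
        intro ω ω' _ _ h
        have h2 : v ω = v ω' := (Prod.ext_iff.mp h).1
        funext o
        rcases o with _ | i
        · have h3 := congrFun h2 0
          simp only [hv, Fin.cases_zero] at h3
          exact_mod_cast h3
        · have h3 := congrFun h2 i.succ
          simp only [hv, Fin.cases_succ] at h3
          exact_mod_cast h3
      have b2 := CH_le_vec hp0 hp.sum_one v (fun ω => (tb ω, lam ω))
        (fun _ => 3 * C₀ + 1) (by
          intro ω ω' hω hω' h k
          have h2 : tb ω = tb ω' := (Prod.ext_iff.mp h).1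
          have h3 : lam ω = lam ω' := (Prod.ext_iff.mp h).2
          set oi : Option (Fin n) := Fin.cases none (fun i => some i) k with hoi
          -- times are close
          have h4 : T (x ω) / R = T (x ω') / R := by
            simp only [htb] at h2
            exact_mod_cast h2
          have h5 : |((T (x ω) : ℝ) - T (x ω'))| ≤ R := by
            have c1 := Nat.div_add_mod (T (x ω)) R
            have c2 := Nat.div_add_mod (T (x ω')) R
            have c3 := Nat.mod_lt (T (x ω)) (by omega : R > 0)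
            have c4 := Nat.mod_lt (T (x ω')) (by omega : R > 0)
            rw [h4] at c1
            have c5 : (T (x ω) : ℝ) = R * ((T (x ω') / R : ℕ) : ℝ) + ((T (x ω) % R : ℕ) : ℝ) := by
              exact_mod_cast c1.symm
            have c6 : (T (x ω') : ℝ) = R * ((T (x ω') / R : ℕ) : ℝ) +
                ((T (x ω') % R : ℕ) : ℝ) := by
              exact_mod_cast c2.symm
            have c7 : ((T (x ω) % R : ℕ) : ℝ) ≤ R := by exact_mod_cast c3.le
            have c8 : ((T (x ω') % R : ℕ) : ℝ) ≤ R := by exact_mod_cast c4.le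
            have c9 : (0 : ℝ) ≤ ((T (x ω) % R : ℕ) : ℝ) := Nat.cast_nonneg _
            have c10 : (0 : ℝ) ≤ ((T (x ω') % R : ℕ) : ℝ) := Nat.cast_nonneg _
            rw [c5, c6, abs_le]
            constructor <;> linarith
          -- positions are close
          have h6 : |(pos (x ω) oi : ℝ) - pos (x ω') oi| ≤ 3 * C₀ * R := by
            have d1 := hleaf.near ω oi
            have d2 := hleaf.near ω' oi
            rw [hM] at d1 d2
            rw [← h3] at d2
            have d3 := hleaf.B_le ω oi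
            have hMp : (0 : ℝ) < 2 ^ L := by positivity
            have d4 : |(pos (x ω) oi : ℝ) / 2 ^ L - (pos (x ω') oi : ℝ) / 2 ^ L| ≤
                2 * (C₀ / 2 ^ L) + |((T (x ω) : ℝ) - T (x ω')) / 2 ^ L * B (lam ω) oi| := by
              have d5 : (pos (x ω) oi : ℝ) / 2 ^ L - (pos (x ω') oi : ℝ) / 2 ^ L =
                  ((pos (x ω) oi : ℝ) / 2 ^ L - (A (lam ω) oi + (T (x ω) : ℝ) / 2 ^ L *
                    B (lam ω) oi)) -
                  ((pos (x ω') oi : ℝ) / 2 ^ L - (A (lam ω) oi + (T (x ω') : ℝ) / 2 ^ L *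
                    B (lam ω) oi)) +
                  ((T (x ω) : ℝ) - T (x ω')) / 2 ^ L * B (lam ω) oi := by ring
              rw [d5]
              refine (abs_add_le _ _).trans (add_le_add ?_ le_rfl)
              rw [two_mul]
              exact (abs_sub _ _).trans (add_le_add d1 d2)
            have d6 : |((T (x ω) : ℝ) - T (x ω')) / 2 ^ L * B (lam ω) oi| ≤
                R / 2 ^ L * C₀ := by
              rw [abs_mul, abs_div, abs_of_pos hMp]
              exact mul_le_mul (by gcongr) d3 (abs_nonneg _) (by positivity)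
            have d7 : (pos (x ω) oi : ℝ) / 2 ^ L - (pos (x ω') oi : ℝ) / 2 ^ L =
                ((pos (x ω) oi : ℝ) - pos (x ω') oi) / 2 ^ L := by ring
            rw [d7, abs_div, abs_of_pos hMp] at d4
            have d8 : |(pos (x ω) oi : ℝ) - pos (x ω') oi| / 2 ^ L ≤
                (3 * C₀ * R) / 2 ^ L := by
              refine d4.trans ((add_le_add le_rfl d6).trans ?_)
              have d9 : 2 * (C₀ / 2 ^ L) + R / 2 ^ L * C₀ = (2 * C₀ + R * C₀) / 2 ^ L := by ring
              rw [d9]
              refine div_le_div_of_nonneg_right ?_ hMp.le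
              have d10 : (1 : ℝ) ≤ R := by exact_mod_cast hR
              nlinarith only [d10, hC₀]
            exact (div_le_div_iff_of_pos_right hMp).mp d8
          simp only [hv, cel]
          exact div_diff (by omega) h6)
      rw [Ex_const hp.sum_one] at b2
      push_cast at b2
      exact b1.trans b2
    have a4 : 0 ≤ Real.log 3 := Real.log_nonneg (by norm_num)
    linarith only [a1, a2, a3, a4]
  -- time given the line and the cube
  have htime : CH p (fun ω => T (x ω)) lam ≤
      CH p (fun ω => T (x ω)) (fun ω => (lam ω, cel R pos (x ω))) +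
        CH p (fun ω => cel R pos (x ω)) lam := by
    have a1 := CH_le_add hp0 (fun ω => T (x ω)) (fun ω => cel R pos (x ω)) lam
    have a2 : CH p (fun ω => T (x ω)) (fun ω => (cel R pos (x ω), lam ω)) =
        CH p (fun ω => T (x ω)) (fun ω => (lam ω, cel R pos (x ω))) := by
      refine CH_congr hp0 (fun _ _ _ _ h => (Prod.ext_iff.mp h).1)
        (fun _ _ _ _ h => (Prod.ext_iff.mp h).1) ?_ ?_ <;>
      · intro w w' _ _ h
        simp only [Prod.mk.injEq] at h ⊢
        tauto
    linarith only [a1, a2]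
  have hlog : (L : ℝ) * Real.log 2 = Real.log K + Real.log R := by
    rw [← Real.log_pow, hKR', Real.log_mul hK'.ne' hR'.ne']
  have g1 : Real.log R - e₁ - C₂ ≤
      CH p (fun ω => T (x ω)) (fun ω => (lam ω, cel R pos (x ω))) := by linarith only [he₁, hcell, htime, hlog]
  have g2 := mul_le_mul_of_nonneg_left g1 hn0
  have g3 : 0 ≤ (L : ℝ) / κ + γ + κ + ε * L := by positivity
  have g4 : n * C₂ * 1 ≤ n * C₂ * (L / κ + γ + κ + 1 + ε * L) :=
    mul_le_mul_of_nonneg_left (by linarith only [g3]) (by positivity)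
  linarith only [h1, g2, g4]

/-- Variables with the same law have the same entropy. -/
lemma H_eq_of_law {Ω Ω' S : Type} [Fintype Ω] [Fintype Ω'] {p : Ω → ℝ} {q : Ω' → ℝ} {X : Ω → S}
    {Y : Ω' → S} (h : ∀ s, law p X s = law q Y s) : H p X = H q Y := by
  classical
  rw [H_eq_sum_image, H_eq_sum_image]
  have h0 : ∀ (Ω₁ : Type) [Fintype Ω₁] (r : Ω₁ → ℝ) (Z : Ω₁ → S) (s : S),
      s ∉ univ.image Z → law r Z s = 0 := by
    intro Ω₁ _ r Z s hs
    unfold law
    refine Finset.sum_eq_zero fun ω _ => ?_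
    rw [if_neg]
    intro h1
    exact hs (Finset.mem_image.mpr ⟨ω, Finset.mem_univ ω, h1⟩)
  have e1 : ∑ s ∈ univ.image X, Real.negMulLog (law p X s) =
      ∑ s ∈ univ.image X ∪ univ.image Y, Real.negMulLog (law p X s) := by
    refine Finset.sum_subset Finset.subset_union_left fun s _ hs => ?_
    rw [h0 Ω p X s hs, Real.negMulLog_zero]
  have e2 : ∑ s ∈ univ.image Y, Real.negMulLog (law q Y s) =
      ∑ s ∈ univ.image X ∪ univ.image Y, Real.negMulLog (law q Y s) := by
    refine Finset.sum_subset Finset.subset_union_right fun s _ hs => ?_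
    rw [h0 Ω' q Y s hs, Real.negMulLog_zero]
  rw [e1, e2]
  exact Finset.sum_congr rfl fun s _ => by rw [h s]

theorem mix_thm : MIXStmt := by
  classical
  intro n C₀ hC₀
  obtain ⟨C₁, hC₁, hmkc⟩ := mkc_thm n C₀ hC₀
  have hl2 : 0 < Real.log 2 := Real.log_pos (by norm_num)
  have hn0 : (0 : ℝ) ≤ n := Nat.cast_nonneg n
  refine ⟨C₁, hC₁, ?_⟩
  intro Ω Λ Ξ W _ _ p lam x T pos A B L κ γ N q o o' l y δ ε e₁ e₃ e hleaf hch hδ he hex hnc hγ
    hκ he₁ he₁0 he₃0 hH
  have hp := hleaf.isLaw
  have hp0 := hp.nonneg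
  have hq := hch.isLaw
  have hq0 := hq.nonneg
  have hL0 : (0 : ℝ) ≤ L := Nat.cast_nonneg L
  have hκ0 : (1 : ℝ) ≤ κ := by exact_mod_cast hκ
  have hε : 0 ≤ ε := le_trans (Ex_nonneg hp0 fun ω _ => he (x ω)) hex
  have hM : ((2 ^ L : ℕ) : ℝ) = 2 ^ L := by push_cast; rfl
  set E : ℝ := L / κ + γ + κ + 1 + ε * L with hE
  have hE0 : 0 ≤ E := by positivity
  set G : ℝ := n * e₁ + e₃ + C₁ * E with hG
  have hG0 : 0 ≤ G := by positivity
  -- the information
  set I : ℕ → ℝ := fun i => H q (y 0) - CH q (y 0) (y i) with hI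
  have hHy : ∀ i ≤ N, H q (y i) = H p x := by
    intro i hi
    exact H_eq_of_law (hch.cell i hi)
  have hIs : ∀ i ≤ N, I i = H p x - CH q (y i) (y 0) := by
    intro i hi
    have a1 : H q (fun w => (y 0 w, y i w)) = H q (fun w => (y i w, y 0 w)) :=
      H_congr hq0 (fun _ _ _ _ h => by simp only [Prod.mk.injEq] at h ⊢; tauto)
        (fun _ _ _ _ h => by simp only [Prod.mk.injEq] at h ⊢; tauto)
    simp only [hI]
    rw [← hHy i hi]
    unfold CH
    rw [a1]
    ring
  -- one step
  have step : ∀ i < N, n * I (i + 1) ≤ (n - 1) * I i + G := by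
    intro i hi
    have hmo := hch.marg i hi
    -- conditional independence with the variables of the incidence
    have hX : ∀ w, 0 < q w → y i w = x (o i w) := fun w hw => (hch.start w hw i hi).symm
    have hl : ∀ w, 0 < q w → l i w = lam (o i w) := fun w hw => (hch.line w hw i hi).symm
    have hci : CI q (y 0) (l i) (y i) := by
      unfold CI
      rw [← hch.ci1 i hi]
      refine CH_congr hq0 (fun _ _ _ _ h => (Prod.ext_iff.mp h).1)
        (fun _ _ _ _ h => (Prod.ext_iff.mp h).1) ?_ ?_ <;>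
      · intro w w' _ _ h
        simp only [Prod.mk.injEq] at h ⊢
        tauto
    have hci2 : CI q (y 0) (fun w => lam (o i w)) (fun w => x (o i w)) :=
      hci.replace hq0 (fun _ _ => rfl) hl hX
    -- the fan given the context
    have hnc' : ∀ w, 0 < q w → ∀ u : Fin n → ℝ, (∃ i, 1 ≤ |u i|) →
        ∑ w', (if (y 0 w', x (o i w')) = (y 0 w, x (o i w)) ∧
          |∑ k, u k * B (lam (o i w')) (some k)| ≤ δ then q w' else 0) ≤
          e (x (o i w)) * law q (fun w => (y 0 w, x (o i w))) (y 0 w, x (o i w)) := by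
      intro w hw u hu
      have hpw : 0 < p (o i w) := hmo.pos hq0 hw
      have c1 := hnc (o i w) hpw u hu
      set Ev : W → Prop := fun w' => |∑ k, u k * B (lam (o i w')) (some k)| ≤ δ with hEv
      have hci3 : CI q (y 0) Ev (fun w => x (o i w)) := by
        refine hci2.mono_right hq0 ?_
        intro v v' _ _ h
        have h1 : lam (o i v) = lam (o i v') := (Prod.ext_iff.mp h).1
        simp only [hEv]
        rw [h1]
      have c2 := hci3.law_le hq (y 0 w) True (x (o i w))
      have c3 : law q (fun v => (Ev v, x (o i v))) (True, x (o i w)) ≤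
          e (x (o i w)) * law q (fun v => x (o i v)) (x (o i w)) := by
        rw [hmo.law x]
        refine le_trans (le_of_eq ?_) c1
        have c4 := hmo.ex (fun ω => if x ω = x (o i w) ∧
          |∑ k, u k * B (lam ω) (some k)| ≤ δ then 1 else 0)
        unfold Ex at c4
        simp only [mul_ite, mul_one, mul_zero] at c4
        rw [← c4]
        unfold law
        refine Finset.sum_congr rfl fun v _ => ?_
        by_cases h1 : x (o i v) = x (o i w) ∧ |∑ k, u k * B (lam (o i v)) (some k)| ≤ δ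
        · rw [if_pos h1, if_pos]
          rw [Prod.mk.injEq]
          exact ⟨eq_true h1.2, h1.1⟩
        · rw [if_neg h1, if_neg]
          intro h2
          rw [Prod.mk.injEq] at h2
          exact h1 ⟨h2.2, of_eq_true h2.1⟩
      have c5 : 0 < law q (fun v => x (o i v)) (x (o i w)) := law_pos hq0 _ hw
      have c6 : law q (fun v => (y 0 v, (Ev v, x (o i v)))) (y 0 w, (True, x (o i w))) ≤
          e (x (o i w)) * law q (fun w => (y 0 w, x (o i w))) (y 0 w, x (o i w)) := by
        have c7 := c2.trans (mul_le_mul_of_nonneg_left c3 (law_nonneg hq0 _ _))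
        have c8 : law q (fun v => (y 0 v, (Ev v, x (o i v)))) (y 0 w, (True, x (o i w))) *
            law q (fun v => x (o i v)) (x (o i w)) ≤
            (e (x (o i w)) * law q (fun w => (y 0 w, x (o i w))) (y 0 w, x (o i w))) *
            law q (fun v => x (o i v)) (x (o i w)) := by
          linarith only [c7]
        exact le_of_mul_le_mul_right c8 c5
      refine le_trans (le_of_eq ?_) c6
      unfold law
      refine Finset.sum_congr rfl fun v _ => ?_
      by_cases h1 : (y 0 v, x (o i v)) = (y 0 w, x (o i w)) ∧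
          |∑ k, u k * B (lam (o i v)) (some k)| ≤ δ
      · rw [if_pos h1, if_pos]
        have h2 := Prod.ext_iff.mp h1.1
        rw [Prod.mk.injEq, Prod.mk.injEq]
        exact ⟨h2.1, eq_true h1.2, h2.2⟩
      · rw [if_neg h1, if_neg]
        intro h2
        rw [Prod.mk.injEq, Prod.mk.injEq] at h2
        exact h1 ⟨Prod.ext h2.1 h2.2.2, of_eq_true h2.2.1⟩
    have hmain := hmkc W Ξ Λ (Ξ × Ξ) q L κ γ δ ε (fun w => (y 0 w, x (o i w)))
      (fun a => e a.2) (fun w => bas pos (x (o i w))) (fun w => T (x (o i w))) (y 0)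
      (fun w => lam (o i w)) (fun a k => A a (some k)) (fun a k => B a (some k)) hq
      (fun w => hleaf.T_lt (o i w))
      (fun w w' _ _ h => by
        have h1 : x (o i w) = x (o i w') := (Prod.ext_iff.mp h).2
        simp only
        rw [h1])
      (fun w w' _ _ h => by
        have h1 : x (o i w) = x (o i w') := (Prod.ext_iff.mp h).2
        simp only
        rw [h1])
      (fun w w' _ _ h => (Prod.ext_iff.mp h).1)
      (by
        intro w _ k
        have := hleaf.near (o i w) (some k)
        rw [hM] at this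
        exact this)
      (fun w k => hleaf.B_le (o i w) (some k)) hδ (fun a => he a.2)
      (by
        rw [hmo.ex (fun ω => e (x ω))]
        exact hex)
      (fun w hw u hu => by convert hnc' w hw u hu) hγ hκ
    -- entropy of the point
    have b1 : CH q (fun w => bas pos (x (o i w))) (y 0) ≤ H p x - I i := by
      rw [hIs i hi.le]
      have : CH q (fun w => bas pos (x (o i w))) (y 0) ≤ CH q (y i) (y 0) := by
        refine CH_mono_left hq0 ?_
        intro w w' h1 h2 h
        have h3 : y i w = y i w' := (Prod.ext_iff.mp h).1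
        rw [hX w h1, hX w' h2] at h3
        simp only
        rw [h3]
      linarith only [this]
    -- entropy of the time
    have b2 : CH q (fun w => T (x (o i w))) (fun w => lam (o i w)) =
        CH p (fun ω => T (x ω)) lam := hmo.CH (fun ω => T (x ω)) lam
    have b3 : CH q (fun w => T (x (o i w))) (fun w => (lam (o i w), y 0 w)) =
        CH q (fun w => T (x (o i w))) (fun w => lam (o i w)) -
        (CH q (y 0) (fun w => lam (o i w)) -
          CH q (y 0) (fun w => (T (x (o i w)), lam (o i w)))) := by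
      have a1 := CH_chain hq0 (fun w => T (x (o i w))) (y 0) (fun w => lam (o i w))
      have a2 := CH_chain hq0 (y 0) (fun w => T (x (o i w))) (fun w => lam (o i w))
      have a3 : CH q (fun w => (T (x (o i w)), y 0 w)) (fun w => lam (o i w)) =
          CH q (fun w => (y 0 w, T (x (o i w)))) (fun w => lam (o i w)) := by
        refine CH_congr hq0 ?_ ?_ (fun _ _ _ _ h => h) (fun _ _ _ _ h => h) <;>
        · intro w w' _ _ h
          simp only [Prod.mk.injEq] at h ⊢
          tauto
      have a4 : CH q (fun w => T (x (o i w))) (fun w => (y 0 w, lam (o i w))) =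
          CH q (fun w => T (x (o i w))) (fun w => (lam (o i w), y 0 w)) := by
        refine CH_congr hq0 (fun _ _ _ _ h => (Prod.ext_iff.mp h).1)
          (fun _ _ _ _ h => (Prod.ext_iff.mp h).1) ?_ ?_ <;>
        · intro w w' _ _ h
          simp only [Prod.mk.injEq] at h ⊢
          tauto
      linarith only [a1, a2, a3, a4]
    have b4 : CH q (y 0) (y i) ≤ CH q (y 0) (fun w => (T (x (o i w)), lam (o i w))) := by
      rw [← hch.ci1 i hi]
      refine CH_mono_cond hq0 ?_
      intro w w' h1 h2 h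
      have h3 : y i w = y i w' := (Prod.ext_iff.mp h).1
      have h4 : l i w = l i w' := (Prod.ext_iff.mp h).2
      rw [hX w h1, hX w' h2] at h3
      rw [hl w h1, hl w' h2] at h4
      simp only
      rw [h3, h4]
    have b5 : CH q (y 0) (fun w => lam (o i w)) = CH q (y 0) (l i) := by
      refine CH_congr hq0 (fun _ _ _ _ h => (Prod.ext_iff.mp h).1)
        (fun _ _ _ _ h => (Prod.ext_iff.mp h).1) ?_ ?_
      · intro w w' h1 h2 h
        rw [hl w h1, hl w' h2]
        exact h
      · intro w w' h1 h2 h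
        simp only
        rw [← hl w h1, ← hl w' h2]
        exact h
    have b6 : CH q (y 0) (l i) ≤ CH q (y 0) (y (i + 1)) := by
      rw [← hch.ci2 i hi]
      exact CH_mono_cond hq0 (fun _ _ _ _ h =>
        (Prod.ext_iff.mp (Prod.ext_iff.mp h).2).1)
    -- assembly
    have d1 : L * Real.log 2 - e₁ - (CH q (y 0) (l i) - CH q (y 0) (y i)) ≤
        CH q (fun w => T (x (o i w))) (fun w => (lam (o i w), y 0 w)) := by
      rw [b3, b2, b5]
      linarith only [he₁, b4]
    have d2 := mul_le_mul_of_nonneg_left d1 hn0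
    have d3 : n * (CH q (y 0) (l i) - CH q (y 0) (y i)) ≤ n * (I i - I (i + 1)) := by
      refine mul_le_mul_of_nonneg_left ?_ hn0
      simp only [hI]
      linarith only [b6]
    linarith only [hH, hmain, b1, d2, d3]
  have hI0 : ∀ i ≤ N, I i ≤ H p x := by
    intro i hi
    rw [hIs i hi]
    linarith only [hq0, CH_nonneg hq0 (y i) (y 0)]
  have hgoal : I N ≤ (1 - 1 / n) ^ N * (n * (L * Real.log 2) + e₃) + G := by
    rcases Nat.eq_zero_or_pos n with hn | hn
    · subst hn
      have := hI0 N le_rfl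
      simp only [Nat.cast_zero, zero_mul, zero_add, div_zero, sub_zero, one_pow, one_mul] at hH ⊢
      linarith only [hG0, this, hH]
    · have hn1 : (1 : ℝ) ≤ n := by exact_mod_cast hn
      have hnp : (0 : ℝ) < n := by linarith only [hn1]
      have hr0 : 0 ≤ (1 : ℝ) - 1 / n := by
        rw [sub_nonneg, div_le_one hnp]
        exact hn1
      have ind : ∀ i ≤ N, I i ≤ (1 - 1 / n) ^ i * (n * (L * Real.log 2) + e₃) + G := by
        intro i
        induction i with
        | zero =>
          intro _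
          rw [pow_zero, one_mul]
          linarith only [hH, hG0, hI0, hI0 0 (Nat.zero_le N)]
        | succ i ih =>
          intro hi
          have h1 := ih (by omega)
          have h2 := step i (by omega)
          have h3 : I (i + 1) ≤ (1 - 1 / n) * I i + G / n := by
            have h4 : n * I (i + 1) ≤ n * ((1 - 1 / n) * I i + G / n) := by
              have h5 : n * ((1 - 1 / (n : ℝ)) * I i + G / n) = (n - 1) * I i + G := by
                field_simp
              rw [h5]
              exact h2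
            exact le_of_mul_le_mul_left h4 hnp
          have h6 := mul_le_mul_of_nonneg_left h1 hr0
          have h7 : (1 - 1 / (n : ℝ)) * G + G / n = G := by
            field_simp
            ring
          rw [pow_succ]
          have h8 : (1 - 1 / (n : ℝ)) * ((1 - 1 / n) ^ i * (n * (L * Real.log 2) + e₃) + G) =
              (1 - 1 / n) ^ i * (1 - 1 / n) * (n * (L * Real.log 2) + e₃) +
                (1 - 1 / (n : ℝ)) * G := by ring
          linarith only [h3, h6, h7]
      exact ind N le_rfl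
  rw [← hIs N le_rfl]
  exact hgoal

end Pool.KS3
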