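import Pool.Agent.H45.KAL.MKB

/-!
# Entropic multilinear Kakeya inequality for a nonconcentrated fan

The velocities of the lines through a point are not concentrated near hyperplanes. Then the
entropy deficit of the point, given a context, is at most `n` times the deficit of the time given
the line and the context.
-/

set_option autoImplicit false

namespace Pool.KS3

open Finset Real
open Pool.Agent.H49.Ent Pool.Agent.H32.Dense Pool.STK Pool.KAF Pool.KAL

/-- Entropic multilinear Kakeya inequality. The variable `z` determines the point and the context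
(for instance `z` is the point and the context), and given `z` the velocities are not
concentrated near hyperplanes, outside an event of conditional probability `e z`, of mean at most
`ε`. -/
def MKCStmt : Prop :=
  ∀ (n : ℕ) (C₀ : ℝ), 1 ≤ C₀ → ∃ C : ℝ, 0 ≤ C ∧
    ∀ (Ω Γ Λ Z : Type) [Fintype Ω] (p : Ω → ℝ) (L κ γ : ℕ) (δ ε : ℝ) (z : Ω → Z)
      (e : Z → ℝ) (Y : Ω → Fin n → ℕ) (T : Ω → ℕ) (c : Ω → Γ) (l : Ω → Λ)
      (A B : Λ → Fin n → ℝ),
      IsLaw p → (∀ ω, T ω < 2 ^ L) → Det p z Y → Det p z T → Det p z c →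
      (∀ ω, 0 < p ω → ∀ i, |(Y ω i : ℝ) / 2 ^ L -
        (A (l ω) i + (T ω : ℝ) / 2 ^ L * B (l ω) i)| ≤ C₀ / 2 ^ L) →
      (∀ ω i, |B (l ω) i| ≤ C₀) → 0 < δ → (∀ a, 0 ≤ e a) → Ex p (fun ω => e (z ω)) ≤ ε →
      (∀ ω, 0 < p ω → ∀ u : Fin n → ℝ, (∃ i, 1 ≤ |u i|) →
        ∑ ω', (open Classical in
          if z ω' = z ω ∧ |∑ i, u i * B (l ω') i| ≤ δ then p ω' else 0) ≤
          e (z ω) * law p z (z ω)) →
      n.factorial * C₀ ^ n ≤ δ ^ n * 2 ^ γ → 1 ≤ κ →
      n * CH p T (fun ω => (l ω, c ω)) ≤ CH p Y c + C * (L / κ + γ + κ + 1 + ε * L)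

namespace MKC

/-- Conditional entropy given a pair as an average. -/
lemma CH_pair_eq_sum {Ω S T U : Type} [Fintype Ω] [DecidableEq U] {p : Ω → ℝ}
    (hp : ∀ ω, 0 ≤ p ω) (X : Ω → S) (Y : Ω → T) (Z : Ω → U) :
    CH p X (fun ω => (Y ω, Z ω)) =
      ∑ z ∈ univ.image Z, law p Z z * CH (cond p Z z) X Y := by
  have h1 := CH_eq_sum hp (fun ω => (X ω, Y ω)) Z
  have h2 := CH_eq_sum hp Y Z
  have h3 : CH p X (fun ω => (Y ω, Z ω)) = CH p (fun ω => (X ω, Y ω)) Z - CH p Y Z := by
    rw [CH_chain hp X Y Z]
    ring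
  rw [h3, h1, h2, ← Finset.sum_sub_distrib]
  refine Finset.sum_congr rfl fun z _ => ?_
  unfold CH
  ring

/-- Velocities extended by zero. -/
noncomputable def vx {n : ℕ} (v : Fin n → ℝ) (i : ℕ) : ℝ := if h : i < n then v ⟨i, h⟩ else 0

/-- Independent copies given `z` with a nondegenerate frame of velocities. -/
lemma copies {Ω Z : Type} [Fintype Ω] {p : Ω → ℝ} (hp : IsLaw p) (z : Ω → Z) {n : ℕ}
    (V : Ω → Fin n → ℝ) {δ ε : ℝ} (e : Z → ℝ) (hδ : 0 < δ) (he : ∀ a, 0 ≤ e a)
    (hε : Ex p (fun ω => e (z ω)) ≤ ε)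
    (nc : ∀ ω, 0 < p ω → ∀ u : Fin n → ℝ, (∃ i, 1 ≤ |u i|) →
      ∑ ω', (open Classical in
        if z ω' = z ω ∧ |∑ i, u i * V ω' i| ≤ δ then p ω' else 0) ≤
        e (z ω) * law p z (z ω)) :
    ∀ k ≤ n, ∃ (W : Type) (_ : Fintype W) (q : W → ℝ) (o : W → Ω) (f : ℕ → W → Ω),
      IsLaw q ∧ Marg q p o ∧ (∀ j < k, Marg q p (f j)) ∧
      (∀ w, 0 < q w → ∀ j < k, z (f j w) = z (o w)) ∧
      ∑ w, (open Classical in
        if |Matrix.det (Matrix.of fun i j : Fin k => vx (V (f j w)) i)| < δ ^ k then q w else 0) ≤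
        k * ε := by
  classical
  intro k
  induction k with
  | zero =>
    intro _
    refine ⟨Ω, inferInstance, p, fun ω => ω, fun _ ω => ω, hp, Marg.id p, ?_, ?_, ?_⟩
    · intro j hj
      exact absurd hj (Nat.not_lt_zero j)
    · intro _ _ j hj
      exact absurd hj (Nat.not_lt_zero j)
    · simp
  | succ k ih =>
    intro hk
    obtain ⟨W, iW, q, o, f, hq, ho, hf, hz, hdet⟩ := ih (by omega)
    have hq0 := hq.nonneg
    have hp0 := hp.nonneg
    have hZ : ∀ a, law q (fun w => z (o w)) a = law p z a := fun a => ho.law z a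
    set Q := glue q p (fun w => z (o w)) z with hQ
    have hQ0 : ∀ w, 0 ≤ Q w := glue_nonneg hq0 hp0
    have m1 : Marg Q q (fun w => w.1) := marg_fst hq0 hZ
    have m2 : Marg Q p (fun w => w.2) := marg_snd hp0 hZ
    have hQl : IsLaw Q := ⟨hQ0, by rw [m1.sum]; exact hq.sum_one⟩
    set f' : ℕ → W × Ω → Ω := fun j w => if j < k then f j w.1 else w.2 with hf'
    refine ⟨W × Ω, inferInstance, Q, fun w => o w.1, f', hQl, m1.comp ho, ?_, ?_, ?_⟩
    · intro j hj
      by_cases hjk : j < k
      · have : f' j = fun w => f j w.1 := by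
          funext w
          simp only [hf', if_pos hjk]
        rw [this]
        exact m1.comp (hf j hjk)
      · have : f' j = fun w => w.2 := by
          funext w
          simp only [hf', if_neg hjk]
        rw [this]
        exact m2
    · intro w hw j hj
      obtain ⟨a1, a2, a3⟩ := (glue_pos_iff hq0 hp0 w).mp hw
      by_cases hjk : j < k
      · simp only [hf', if_pos hjk]
        exact hz w.1 a1 j hjk
      · simp only [hf', if_neg hjk]
        exact a3.symm
    · -- the determinant
      set d : W → ℝ := fun w =>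
        Matrix.det (Matrix.of fun i j : Fin k => vx (V (f j w)) i) with hd
      set d' : W × Ω → ℝ := fun w =>
        Matrix.det (Matrix.of fun i j : Fin (k + 1) => vx (V (f' j w)) i) with hd'
      -- coefficients of the linear form
      set M₀ : W → Matrix (Fin (k + 1)) (Fin (k + 1)) ℝ := fun w =>
        Matrix.of fun i j : Fin (k + 1) => vx (V (f j w)) i with hM₀
      set co : W → Fin (k + 1) → ℝ := fun w i =>
        (-1) ^ ((i : ℕ) + (Fin.last k : Fin (k + 1))) *
          ((M₀ w).submatrix i.succAbove (Fin.last k).succAbove).det with hco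
      have hform : ∀ w : W × Ω, d' w = ∑ i : Fin (k + 1), co w.1 i * vx (V w.2) i := by
        intro w
        simp only [hd']
        rw [Matrix.det_succ_column _ (Fin.last k)]
        refine Finset.sum_congr rfl fun i _ => ?_
        have e1 : (Matrix.of fun i j : Fin (k + 1) => vx (V (f' j w)) i) i (Fin.last k) =
            vx (V w.2) i := by
          simp only [Matrix.of_apply, hf', Fin.val_last, lt_irrefl, if_false]
        have e2 : (Matrix.of fun i j : Fin (k + 1) => vx (V (f' j w)) i).submatrix i.succAbove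
            (Fin.last k).succAbove =
            (M₀ w.1).submatrix i.succAbove (Fin.last k).succAbove := by
          ext a b
          simp only [Matrix.submatrix_apply, Matrix.of_apply, hM₀, hf', Fin.succAbove_last,
            Fin.val_castSucc, Fin.is_lt, if_true]
        rw [e1, e2]
        simp only [hco]
        ring
      have hlast : ∀ w, |co w (Fin.last k)| = |d w| := by
        intro w
        simp only [hco]
        rw [abs_mul, abs_pow, abs_neg, abs_one, one_pow, one_mul]
        congr 2
        ext a b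
        simp only [Matrix.submatrix_apply, Matrix.of_apply, hM₀, Fin.succAbove_last,
          Fin.val_castSucc]
      have hlt : ∀ i : Fin (k + 1), (i : ℕ) < n := fun i => lt_of_lt_of_le i.2 hk
      -- the linear form on `Fin n`
      set u : W → Fin n → ℝ := fun w i =>
        if h : (i : ℕ) < k + 1 then co w ⟨i, h⟩ / δ ^ k else 0 with hu
      have hsum : ∀ (w : W) (v : Fin n → ℝ), ∑ i, u w i * v i =
          (∑ i : Fin (k + 1), co w i * vx v i) / δ ^ k := by
        intro w v
        rw [Finset.sum_div]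
        have e1 : ∀ i : Fin (k + 1), co w i * vx v i / δ ^ k =
            (fun i : Fin n => u w i * v i) (Fin.castLE hk i) := by
          intro i
          have h1 : ((Fin.castLE hk i : Fin n) : ℕ) < k + 1 := i.2
          simp only [hu, vx]
          rw [dif_pos h1, dif_pos (hlt i)]
          have h2 : (⟨((Fin.castLE hk i : Fin n) : ℕ), h1⟩ : Fin (k + 1)) = i := rfl
          have h3 : (⟨(i : ℕ), hlt i⟩ : Fin n) = Fin.castLE hk i := rfl
          rw [h2, h3]
          ring
        rw [Finset.sum_congr rfl fun i _ => e1 i]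
        rw [← Finset.sum_image (f := fun i : Fin n => u w i * v i)
          (g := fun i : Fin (k + 1) => Fin.castLE hk i) (s := univ)
          (fun a _ b _ h => Fin.castLE_injective hk h)]
        symm
        refine Finset.sum_subset (Finset.subset_univ _) ?_
        intro i _ hi
        have h1 : ¬ (i : ℕ) < k + 1 := by
          intro h
          apply hi
          rw [Finset.mem_image]
          exact ⟨⟨i, h⟩, Finset.mem_univ _, rfl⟩
        simp only [hu]
        rw [dif_neg h1, zero_mul]
      have hpt : ∀ w : W × Ω, (if |d' w| < δ ^ (k + 1) then Q w else 0) ≤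
          (if |d w.1| < δ ^ k then Q w else 0) +
          (if ¬ |d w.1| < δ ^ k ∧ |∑ i, u w.1 i * V w.2 i| ≤ δ then Q w else 0) := by
        intro w
        have hQw := hQ0 w
        by_cases h1 : |d w.1| < δ ^ k
        · have e2 : (if ¬ |d w.1| < δ ^ k ∧ |∑ i, u w.1 i * V w.2 i| ≤ δ then Q w else 0) = 0 :=
            if_neg (fun h => h.1 h1)
          have e1 : (if |d w.1| < δ ^ k then Q w else 0) = Q w := if_pos h1
          rw [e1, e2]
          split_ifs <;> linarith
        · have e1 : (if |d w.1| < δ ^ k then Q w else 0) = 0 := if_neg h1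
          rw [e1]
          by_cases h2 : |d' w| < δ ^ (k + 1)
          · have h3 : |∑ i, u w.1 i * V w.2 i| ≤ δ := by
              rw [hsum, ← hform, abs_div, abs_of_pos (pow_pos hδ k), div_le_iff₀ (pow_pos hδ k)]
              rw [pow_succ] at h2
              linarith only [h2]
            have e2 : (if ¬ |d w.1| < δ ^ k ∧ |∑ i, u w.1 i * V w.2 i| ≤ δ then Q w else 0) =
                Q w := if_pos ⟨h1, h3⟩
            rw [e2]
            split_ifs <;> linarith
          · have e3 : (if |d' w| < δ ^ (k + 1) then Q w else 0) = 0 := if_neg h2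
            rw [e3]
            split_ifs <;> linarith
      refine (Finset.sum_le_sum fun w _ => hpt w).trans ?_
      rw [Finset.sum_add_distrib]
      have hA : ∑ w : W × Ω, (if |d w.1| < δ ^ k then Q w else 0) ≤ k * ε := by
        refine le_trans (le_of_eq ?_) hdet
        have := m1.ex (fun w => if |d w| < δ ^ k then 1 else 0)
        unfold Ex at this
        simp only [mul_ite, mul_one, mul_zero] at this
        exact this
      have hB : ∑ w : W × Ω,
          (if ¬ |d w.1| < δ ^ k ∧ |∑ i, u w.1 i * V w.2 i| ≤ δ then Q w else 0) ≤ ε := by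
        rw [Fintype.sum_prod_type]
        have hrow : ∀ w : W, ∑ ω : Ω,
            (if ¬ |d w| < δ ^ k ∧ |∑ i, u w i * V ω i| ≤ δ then Q (w, ω) else 0) ≤
              q w * e (z (o w)) := by
          intro w
          by_cases hw : 0 < q w
          swap
          · have h0 : q w = 0 := le_antisymm (not_lt.mp hw) (hq0 w)
            have hQz : ∀ ω, Q (w, ω) = 0 := by
              intro ω
              simp only [hQ, glue, h0, zero_mul, zero_div, ite_self]
            simp only [hQz, ite_self, Finset.sum_const_zero, h0, zero_mul, le_refl]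
          by_cases hg : |d w| < δ ^ k
          · simp only [hg, not_true, false_and, if_false, Finset.sum_const_zero]
            exact mul_nonneg hw.le (he _)
          have hpo : 0 < p (o w) := ho.pos hq0 hw
          have hl : 0 < law p z (z (o w)) := law_pos hp0 z hpo
          have h1 := nc (o w) hpo (u w) ⟨⟨k, by omega⟩, by
            simp only [hu]
            rw [dif_pos (Nat.lt_succ_self k), abs_div, abs_of_pos (pow_pos hδ k),
              one_le_div (pow_pos hδ k)]
            have : (⟨k, Nat.lt_succ_self k⟩ : Fin (k + 1)) = Fin.last k := rfl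
            rw [this, hlast]
            exact not_lt.mp hg⟩
          have h2 : ∀ ω : Ω, (if ¬ |d w| < δ ^ k ∧ |∑ i, u w i * V ω i| ≤ δ then Q (w, ω) else 0)
              = q w / law p z (z (o w)) *
                (if z ω = z (o w) ∧ |∑ i, u w i * V ω i| ≤ δ then p ω else 0) := by
            intro ω
            by_cases h3 : |∑ i, u w i * V ω i| ≤ δ
            · have e1 : (if ¬ |d w| < δ ^ k ∧ |∑ i, u w i * V ω i| ≤ δ then Q (w, ω) else 0) =
                  Q (w, ω) := if_pos ⟨hg, h3⟩
              rw [e1]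
              by_cases h4 : z ω = z (o w)
              · have e2 : (if z ω = z (o w) ∧ |∑ i, u w i * V ω i| ≤ δ then p ω else 0) = p ω :=
                  if_pos ⟨h4, h3⟩
                rw [e2]
                simp only [hQ, glue]
                rw [if_pos h4.symm, hZ]
                ring
              · have e2 : (if z ω = z (o w) ∧ |∑ i, u w i * V ω i| ≤ δ then p ω else 0) = 0 :=
                  if_neg (fun h => h4 h.1)
                rw [e2, mul_zero]
                simp only [hQ, glue]
                exact if_neg (fun h => h4 h.symm)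
            · have e1 : (if ¬ |d w| < δ ^ k ∧ |∑ i, u w i * V ω i| ≤ δ then Q (w, ω) else 0) =
                  0 := if_neg (fun h => h3 h.2)
              have e2 : (if z ω = z (o w) ∧ |∑ i, u w i * V ω i| ≤ δ then p ω else 0) = 0 :=
                  if_neg (fun h => h3 h.2)
              rw [e1, e2, mul_zero]
          rw [Finset.sum_congr rfl fun ω _ => h2 ω, ← Finset.mul_sum]
          calc q w / law p z (z (o w)) *
              ∑ ω, (if z ω = z (o w) ∧ |∑ i, u w i * V ω i| ≤ δ then p ω else 0) ≤
              q w / law p z (z (o w)) * (e (z (o w)) * law p z (z (o w))) :=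
                mul_le_mul_of_nonneg_left h1 (by positivity)
            _ = q w * e (z (o w)) := by field_simp
        refine (Finset.sum_le_sum fun w _ => hrow w).trans ?_
        have := ho.ex (fun ω => e (z ω))
        unfold Ex at this hε
        rw [this]
        exact hε
      push_cast
      linarith only [hA, hB]

/-- The digits of the velocities of the frame. -/
noncomputable def vd {n : ℕ} {Ω Λ W : Type} (N₁ : ℝ) (B : Λ → Fin n → ℝ) (l : Ω → Λ)
    (f : ℕ → W → Ω) (w : W) (k : Fin (n * n)) : ℤ :=
  ⌊N₁ * B (l (f ((finProdFinEquiv.symm k).1 : Fin n) w)) (finProdFinEquiv.symm k).2⌋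

lemma vd_eq {n : ℕ} {Ω Λ W : Type} (N₁ : ℝ) (B : Λ → Fin n → ℝ) (l : Ω → Λ)
    (f : ℕ → W → Ω) {w w' : W} (h : vd N₁ B l f w = vd N₁ B l f w') (j i : Fin n) :
    |N₁ * B (l (f j w)) i - N₁ * B (l (f j w')) i| ≤ 1 := by
  have h1 := congrFun h (finProdFinEquiv (j, i))
  simp only [vd, Equiv.symm_apply_apply] at h1
  exact MKB.of_floor_eq h1

end MKC

open MKC MKB in
theorem mkc_thm : MKCStmt := by
  classical
  intro n C₀ hC₀
  obtain ⟨C₁, hC₁, hmkb⟩ := mkb_thm n C₀ hC₀
  have hl2 : 0 < Real.log 2 := Real.log_pos (by norm_num)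
  have hn0 : (0 : ℝ) ≤ n := Nat.cast_nonneg n
  have hC₀' : 0 < C₀ := by linarith
  have hlc : 0 ≤ Real.log (4 * C₀ * n + 3) := Real.log_nonneg (by nlinarith only [hC₀])
  set K₁ : ℝ := n * (n * n) * (Real.log (4 * C₀ * n + 3) + Real.log 2) with hK₁
  have hK₁0 : 0 ≤ K₁ := by positivity
  refine ⟨C₁ + n * Real.log 2 + K₁ + n * n * Real.log 2, by positivity, ?_⟩
  intro Ω Γ Λ Z _ p L κ γ δ ε z e Y T c l A B hp hT hzY hzT hzc hnear hB hδ he hex nc hγ hκ
  have hp0 := hp.nonneg
  have hε : 0 ≤ ε := le_trans (Ex_nonneg hp0 fun ω _ => he (z ω)) hex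
  have hL0 : (0 : ℝ) ≤ L := Nat.cast_nonneg L
  have hκ0 : (1 : ℝ) ≤ κ := by exact_mod_cast hκ
  have hγ0 : (0 : ℝ) ≤ γ := Nat.cast_nonneg γ
  have hLκ : 0 ≤ (L : ℝ) / κ := by positivity
  have hεL : 0 ≤ ε * L := by positivity
  -- trivial bound for the time
  have htriv : ∀ {Ω' Γ' : Type} [Fintype Ω'] (r : Ω' → ℝ) (T' : Ω' → ℕ) (c' : Ω' → Γ'),
      IsLaw r → (∀ ω, T' ω < 2 ^ L) → CH r T' c' ≤ L * Real.log 2 := by
    intro Ω' Γ' _ r T' c' hr hT'
    have h1 := CH_le_card hr.nonneg hr.sum_one T' c' (fun _ => Finset.range (2 ^ L))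
      (fun ω _ => Finset.mem_range.mpr (hT' ω))
    rw [Finset.card_range, Ex_const hr.sum_one] at h1
    push_cast at h1
    rwa [Real.log_pow] at h1
  by_cases hLγ : L < γ
  · have h1 := htriv p T (fun ω => (l ω, c ω)) hp hT
    have h2 := CH_nonneg hp0 Y c
    have h3 : (L : ℝ) ≤ γ := by exact_mod_cast hLγ.le
    have h4 : n * CH p T (fun ω => (l ω, c ω)) ≤ n * Real.log 2 * γ := by
      calc n * CH p T (fun ω => (l ω, c ω)) ≤ n * (L * Real.log 2) :=
            mul_le_mul_of_nonneg_left h1 hn0
        _ ≤ n * Real.log 2 * γ := by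
            have := mul_le_mul_of_nonneg_left h3 (by positivity : 0 ≤ n * Real.log 2)
            linarith only [this]
    have h5 : n * Real.log 2 * γ ≤ (C₁ + n * Real.log 2 + K₁ + n * n * Real.log 2) *
        (L / κ + γ + κ + 1 + ε * L) := by
      have a1 : 0 ≤ n * Real.log 2 := by positivity
      have a2 : 0 ≤ n * n * Real.log 2 := by positivity
      exact mul_le_mul (by linarith only [hC₁, hK₁0, a2]) (by linarith only [hκ0, hLκ, hεL]) hγ0 (by linarith only [hC₁, hK₁0, a1, a2])
    linarith only [h2, h4, h5]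
  push Not at hLγ
  -- the number of blocks
  set s : ℕ := (L - γ) / κ with hs
  have hκs : κ * s + γ ≤ L := by
    have := Nat.mul_div_le (L - γ) κ
    rw [← hs] at this
    omega
  have hκs2 : (L : ℝ) - κ * s ≤ γ + κ := by
    have h1 := Nat.lt_mul_div_succ (L - γ) (by omega : 0 < κ)
    have h2 : L ≤ κ * s + κ + γ := by
      have h3 : κ * ((L - γ) / κ + 1) = κ * s + κ := by rw [hs]; ring
      rw [h3] at h1
      omega
    have h4 : (L : ℝ) ≤ κ * s + κ + γ := by exact_mod_cast h2
    linarith only [h4]
  have hsL : (s : ℝ) ≤ L / κ := by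
    rw [le_div_iff₀ (by linarith only [hκ0])]
    have h1 : s * κ ≤ L := by
      have := Nat.div_mul_le_self (L - γ) κ
      rw [← hs] at this
      omega
    exact_mod_cast h1
  -- the copies
  obtain ⟨W, _, q, o, f, hq, ho, hf, hz, hdet⟩ :=
    copies hp z (fun ω => B (l ω)) e hδ he hex nc n le_rfl
  have hq0 := hq.nonneg
  set N₁ : ℝ := n * (2 : ℝ) ^ (γ + κ) with hN₁
  have hN₁0 : 0 ≤ N₁ := by positivity
  set wv : W → Fin (n * n) → ℤ := vd N₁ B l f with hwv
  set D : W → Matrix (Fin n) (Fin n) ℝ := fun w => Matrix.of fun i j : Fin n =>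
    B (l (f j w)) i with hD
  have hDdet : ∀ w, Matrix.det (Matrix.of fun i j : Fin n => vx (B (l (f j w))) i) =
      (D w).det := by
    intro w
    congr 1
    ext i j
    simp only [Matrix.of_apply, hD, vx, Fin.is_lt, dif_pos, Fin.eta]
  simp only [hDdet] at hdet
  -- properties on the support
  have hsup : ∀ w, 0 < q w → ∀ j : Fin n, Y (f j w) = Y (o w) ∧ T (f j w) = T (o w) ∧
      c (f j w) = c (o w) := by
    intro w hw j
    have h1 : 0 < p (f j w) := (hf j j.2).pos hq0 hw
    have h2 : 0 < p (o w) := ho.pos hq0 hw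
    have h3 := hz w hw j j.2
    exact ⟨hzY _ _ h1 h2 h3, hzT _ _ h1 h2 h3, hzc _ _ h1 h2 h3⟩
  -- one class
  have hclass : ∀ a ∈ univ.image wv, law q wv a *
      ∑ j : Fin n, CH (cond q wv a) (fun w => T (o w)) (fun w => (l (f j w), c (o w))) ≤
      law q wv a * (CH (cond q wv a) (fun w => Y (o w)) (fun w => c (o w)) +
        (n * ((L - κ * s : ℝ) * Real.log 2) + C₁ * (s + 1))) +
      (∑ w, if wv w = a ∧ |(D w).det| < δ ^ n then q w else 0) * (n * (L * Real.log 2)) := by
    intro a _
    have hsum0 : 0 ≤ ∑ w, (if wv w = a ∧ |(D w).det| < δ ^ n then q w else 0) := by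
      refine Finset.sum_nonneg fun w _ => ?_
      split_ifs
      · exact hq0 w
      · exact le_rfl
    have hlaw := law_nonneg hq0 wv a
    have hK₂ : 0 ≤ n * ((L - κ * s : ℝ) * Real.log 2) + C₁ * (s + 1) := by
      have h1 : (0 : ℝ) ≤ L - κ * s := by
        have : (κ * s + γ : ℝ) ≤ L := by exact_mod_cast hκs
        linarith only [this]
      positivity
    rcases hlaw.eq_or_lt with h0 | hpos
    · rw [← h0, zero_mul, zero_mul, zero_add]
      positivity
    have hcl : IsLaw (cond q wv a) := ⟨cond_nonneg hq0 wv a, sum_cond q wv hpos.ne'⟩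
    by_cases hgood : ∃ w₀, 0 < q w₀ ∧ wv w₀ = a ∧ δ ^ n ≤ |(D w₀).det|
    · obtain ⟨w₀, hw₀, hwa, hdw⟩ := hgood
      have hdpos : 0 < |(D w₀).det| := lt_of_lt_of_le (pow_pos hδ n) hdw
      have hdne : (D w₀).det ≠ 0 := abs_pos.mp hdpos
      set Iv : Fin n → Fin n → ℝ := fun i j => (D w₀).adjugate i j / (D w₀).det with hIv
      have hmul : ∀ i j, ∑ k, Iv i k * (fun i j => D w₀ i j) k j = if i = j then 1 else 0 := by
        intro i j
        have h1 := congrFun (congrFun (Matrix.adjugate_mul (D w₀)) i) j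
        rw [Matrix.mul_apply, Matrix.smul_apply, Matrix.one_apply] at h1
        simp only [hIv]
        have h2 : ∀ k, (D w₀).adjugate i k / (D w₀).det * D w₀ k j =
            ((D w₀).adjugate i k * D w₀ k j) / (D w₀).det := by
          intro k
          ring
        rw [Finset.sum_congr rfl fun k _ => h2 k, ← Finset.sum_div, h1, smul_eq_mul]
        split_ifs
        · field_simp
        · simp
      have hadj : ∀ i j, |(D w₀).adjugate i j| ≤ n.factorial * C₀ ^ n := by
        intro i j
        rw [Matrix.adjugate_apply]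
        have h1 := Matrix.det_le (A := (D w₀).updateRow j (Pi.single i 1))
          (abv := AbsoluteValue.abs) (x := C₀) (by
            intro a b
            rw [AbsoluteValue.abs_apply]
            by_cases haj : a = j
            · rw [haj, Matrix.updateRow_self]
              by_cases hbi : b = i
              · rw [hbi, Pi.single_eq_same, abs_one]
                exact hC₀
              · rw [Pi.single_eq_of_ne hbi, abs_zero]
                exact hC₀'.le
            · rw [Matrix.updateRow_ne haj]
              exact hB _ _)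
        rw [AbsoluteValue.abs_apply, Fintype.card_fin, nsmul_eq_mul] at h1
        exact h1
      have hIvb : ∀ i j, |Iv i j| ≤ 2 ^ γ := by
        intro i j
        simp only [hIv]
        rw [abs_div, div_le_iff₀ hdpos]
        refine (hadj i j).trans (hγ.trans ?_)
        rw [mul_comm]
        exact mul_le_mul_of_nonneg_left hdw (by positivity)
      have hmain := hmkb W Γ Λ (cond q wv a) L κ γ s (fun w => Y (o w)) (fun w => T (o w))
        (fun w => c (o w)) (fun (j : Fin n) w => l (f j w)) A B (fun i j => D w₀ i j) Iv hcl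
        (fun w => hT (o w))
        (by
          intro w hw j i
          have h1 := ((cond_pos_iff hq0 wv a w).mp hw).1
          obtain ⟨e1, e2, _⟩ := hsup w h1 j
          rw [← e1, ← e2]
          exact hnear (f j w) ((hf j j.2).pos hq0 h1) i)
        hmul hIvb
        (by
          intro w hw j i
          obtain ⟨h1, h2⟩ := (cond_pos_iff hq0 wv a w).mp hw
          have h3 : vd N₁ B l f w = vd N₁ B l f w₀ := by
            rw [← hwv, h2, hwa]
          have h4 := vd_eq N₁ B l f h3 j i
          rw [← mul_sub, abs_mul, abs_of_nonneg hN₁0] at h4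
          exact h4)
        hκ hκs
      have h1 := mul_le_mul_of_nonneg_left hmain hpos.le
      have h2 : 0 ≤ (∑ w, if wv w = a ∧ |(D w).det| < δ ^ n then q w else 0) *
          (n * (L * Real.log 2)) := by positivity
      rw [add_assoc] at h1
      linarith only [h1, h2]
    · push Not at hgood
      have hbad : law q wv a = ∑ w, (if wv w = a ∧ |(D w).det| < δ ^ n then q w else 0) := by
        unfold law
        refine Finset.sum_congr rfl fun w _ => ?_
        by_cases h1 : wv w = a
        · rcases (hq0 w).eq_or_lt with h0 | h0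
          · rw [← h0]
            simp
          · rw [if_pos h1, if_pos ⟨h1, hgood w h0 h1⟩]
        · rw [if_neg h1, if_neg (fun h => h1 h.1)]
      rw [← hbad]
      have h1 : ∑ j : Fin n, CH (cond q wv a) (fun w => T (o w))
          (fun w => (l (f j w), c (o w))) ≤ n * (L * Real.log 2) := by
        have h0 : ∀ j : Fin n, CH (cond q wv a) (fun w => T (o w))
            (fun w => (l (f j w), c (o w))) ≤ L * Real.log 2 := fun j =>
          htriv (cond q wv a) (fun w => T (o w)) (fun w => (l (f j w), c (o w))) hcl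
            (fun w => hT (o w))
        refine (Finset.sum_le_sum fun j _ => h0 j).trans (le_of_eq ?_)
        rw [Finset.sum_const, Finset.card_univ, Fintype.card_fin, nsmul_eq_mul]
      have h2 := CH_nonneg hcl.nonneg (fun w => Y (o w)) (fun w => c (o w))
      have h3 := mul_le_mul_of_nonneg_left h1 hpos.le
      have h4 : 0 ≤ law q wv a * (CH (cond q wv a) (fun w => Y (o w)) (fun w => c (o w)) +
        (n * ((L - κ * s : ℝ) * Real.log 2) + C₁ * (s + 1))) := by positivity
      linarith only [h3, h4]
  -- sum over the classes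
  have hsumcl := Finset.sum_le_sum hclass
  have hL1 : ∑ a ∈ univ.image wv, law q wv a *
      ∑ j : Fin n, CH (cond q wv a) (fun w => T (o w)) (fun w => (l (f j w), c (o w))) =
      ∑ j : Fin n, CH q (fun w => T (o w)) (fun w => ((l (f j w), c (o w)), wv w)) := by
    rw [Finset.sum_congr rfl fun a _ => Finset.mul_sum _ _ _, Finset.sum_comm]
    refine Finset.sum_congr rfl fun j _ => ?_
    rw [CH_pair_eq_sum hq0 (fun w => T (o w)) (fun w => (l (f j w), c (o w))) wv]
  have hlaw1 : ∑ a ∈ univ.image wv, law q wv a = 1 := by rw [sum_law, hq.sum_one]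
  have hR1 : ∑ a ∈ univ.image wv, (law q wv a * (CH (cond q wv a) (fun w => Y (o w))
      (fun w => c (o w)) + (n * ((L - κ * s : ℝ) * Real.log 2) + C₁ * (s + 1))) +
      (∑ w, if wv w = a ∧ |(D w).det| < δ ^ n then q w else 0) * (n * (L * Real.log 2))) ≤
      CH q (fun w => Y (o w)) (fun w => (c (o w), wv w)) +
        (n * ((L - κ * s : ℝ) * Real.log 2) + C₁ * (s + 1)) + n * ε * (n * (L * Real.log 2)) := by
    rw [Finset.sum_add_distrib]
    have h1 : ∑ a ∈ univ.image wv, law q wv a * (CH (cond q wv a) (fun w => Y (o w))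
        (fun w => c (o w)) + (n * ((L - κ * s : ℝ) * Real.log 2) + C₁ * (s + 1))) =
        CH q (fun w => Y (o w)) (fun w => (c (o w), wv w)) +
        (n * ((L - κ * s : ℝ) * Real.log 2) + C₁ * (s + 1)) := by
      rw [CH_pair_eq_sum hq0 (fun w => Y (o w)) (fun w => c (o w)) wv]
      rw [Finset.sum_congr rfl fun a _ => mul_add (law q wv a) _ _, Finset.sum_add_distrib,
        ← Finset.sum_mul, hlaw1, one_mul]
    have h2 : ∑ a ∈ univ.image wv,
        (∑ w, if wv w = a ∧ |(D w).det| < δ ^ n then q w else 0) * (n * (L * Real.log 2)) ≤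
        n * ε * (n * (L * Real.log 2)) := by
      rw [← Finset.sum_mul]
      refine mul_le_mul_of_nonneg_right ?_ (by positivity)
      rw [Finset.sum_comm]
      refine le_trans (le_of_eq ?_) hdet
      refine Finset.sum_congr rfl fun w _ => ?_
      rw [Finset.sum_eq_single (wv w)]
      · by_cases h3 : |(D w).det| < δ ^ n
        · rw [if_pos ⟨rfl, h3⟩, if_pos h3]
        · rw [if_neg (fun h => h3 h.2), if_neg h3]
      · intro b _ hb
        rw [if_neg (fun h => hb h.1.symm)]
      · intro h
        exact absurd (Finset.mem_image_of_mem wv (Finset.mem_univ w)) h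
    linarith only [h1, h2]
  -- removal of the classes
  have hrem : ∀ j : Fin n, CH q (fun w => T (o w)) (fun w => (l (f j w), c (o w))) ≤
      CH q (fun w => T (o w)) (fun w => ((l (f j w), c (o w)), wv w)) +
        n * n * (Real.log (4 * C₀ * n + 3) + (γ + κ) * Real.log 2) := by
    intro j
    have h1 := CH_le_add hq0 (fun w => T (o w)) wv (fun w => (l (f j w), c (o w)))
    have h2 : CH q (fun w => T (o w)) (fun w => (wv w, (l (f j w), c (o w)))) =
        CH q (fun w => T (o w)) (fun w => ((l (f j w), c (o w)), wv w)) := by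
      refine CH_congr hq0 (fun _ _ _ _ h => (Prod.ext_iff.mp h).1)
        (fun _ _ _ _ h => (Prod.ext_iff.mp h).1) ?_ ?_ <;>
      · intro w w' _ _ h
        simp only [Prod.mk.injEq] at h ⊢
        tauto
    have h3 : CH q wv (fun w => (l (f j w), c (o w))) ≤
        n * n * (Real.log (4 * C₀ * n + 3) + (γ + κ) * Real.log 2) := by
      have h4 := CH_le_vec hq0 hq.sum_one wv (fun w => (l (f j w), c (o w)))
        (fun _ => 2 * (C₀ * N₁) + 1) (by
          intro w w' _ _ _ k
          simp only [hwv, vd]
          refine floor_diff ?_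
          have h5 : ∀ (v : W) (i k : Fin n), |N₁ * B (l (f i v)) k| ≤ C₀ * N₁ := by
            intro v i k
            rw [abs_mul, abs_of_nonneg hN₁0, mul_comm]
            exact mul_le_mul_of_nonneg_right (hB _ _) hN₁0
          have h6 := h5 w (finProdFinEquiv.symm k).1 (finProdFinEquiv.symm k).2
          have h7 := h5 w' (finProdFinEquiv.symm k).1 (finProdFinEquiv.symm k).2
          rw [abs_le] at h6 h7 ⊢
          constructor <;> linarith only [h6, h7, h6.1, h6.2, h7.1, h7.2])
      rw [Ex_const hq.sum_one] at h4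
      push_cast at h4
      refine h4.trans (mul_le_mul_of_nonneg_left ?_ (by positivity))
      have h8 : 2 * (2 * (C₀ * N₁) + 1) + 1 ≤ (4 * C₀ * n + 3) * 2 ^ (γ + κ) := by
        have h9 : (1 : ℝ) ≤ 2 ^ (γ + κ) := one_le_pow₀ (by norm_num)
        rw [hN₁]
        linarith only [h9]
      refine (Real.log_le_log (by positivity) h8).trans (le_of_eq ?_)
      rw [Real.log_mul (by positivity) (by positivity), Real.log_pow]
      push_cast
      ring
    linarith only [h1, h2, h3]
  -- marginals
  have hm1 : ∀ j : Fin n, CH q (fun w => T (o w)) (fun w => (l (f j w), c (o w))) =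
      CH p T (fun ω => (l ω, c ω)) := by
    intro j
    rw [← (hf j j.2).CH T (fun ω => (l ω, c ω))]
    refine CH_congr hq0 ?_ ?_ ?_ ?_
    · intro w w' h1 h2 h
      obtain ⟨_, e2, _⟩ := hsup w h1 j
      obtain ⟨_, e2', _⟩ := hsup w' h2 j
      simp only
      rw [e2, e2']
      exact (Prod.ext_iff.mp h).1
    · intro w w' h1 h2 h
      obtain ⟨_, e2, _⟩ := hsup w h1 j
      obtain ⟨_, e2', _⟩ := hsup w' h2 j
      simp only
      rw [← e2, ← e2']
      exact (Prod.ext_iff.mp h).1
    · intro w w' h1 h2 h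
      obtain ⟨_, _, e3⟩ := hsup w h1 j
      obtain ⟨_, _, e3'⟩ := hsup w' h2 j
      simp only
      rw [e3, e3']
      exact h
    · intro w w' h1 h2 h
      obtain ⟨_, _, e3⟩ := hsup w h1 j
      obtain ⟨_, _, e3'⟩ := hsup w' h2 j
      simp only
      rw [← e3, ← e3']
      exact h
  have hm2 : CH q (fun w => Y (o w)) (fun w => (c (o w), wv w)) ≤ CH p Y c := by
    rw [← ho.CH Y c]
    exact CH_mono_cond hq0 (fun _ _ _ _ h => (Prod.ext_iff.mp h).1)
  rw [hL1] at hsumcl
  have hfin1 := Finset.sum_le_sum (s := (univ : Finset (Fin n))) fun j _ => hrem j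
  rw [Finset.sum_congr rfl fun j _ => hm1 j, Finset.sum_add_distrib, Finset.sum_const,
    Finset.sum_const, Finset.card_univ, Fintype.card_fin, nsmul_eq_mul, nsmul_eq_mul] at hfin1
  have hfin2 : n * CH p T (fun ω => (l ω, c ω)) ≤ CH p Y c +
      (n * ((L - κ * s : ℝ) * Real.log 2) + C₁ * (s + 1)) + n * ε * (n * (L * Real.log 2)) +
      n * (n * n * (Real.log (4 * C₀ * n + 3) + (γ + κ) * Real.log 2)) := by
    linarith only [hsumcl, hR1, hm2, hfin1]
  refine hfin2.trans ?_
  have g1 : n * ((L - κ * s : ℝ) * Real.log 2) ≤ n * Real.log 2 * (γ + κ) := by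
    have := mul_le_mul_of_nonneg_left hκs2 (by positivity : 0 ≤ n * Real.log 2)
    linarith only [this]
  have g2 : C₁ * (s + 1) ≤ C₁ * (L / κ + 1) := mul_le_mul_of_nonneg_left (by linarith only [hsL]) hC₁
  have g3 : n * (n * n * (Real.log (4 * C₀ * n + 3) + (γ + κ) * Real.log 2)) ≤
      K₁ * (γ + κ) := by
    rw [hK₁]
    have g4 : Real.log (4 * C₀ * n + 3) ≤ Real.log (4 * C₀ * n + 3) * (γ + κ) := by
      nlinarith only [hlc, hκ0]
    have g5 := mul_le_mul_of_nonneg_left g4 (by positivity : 0 ≤ (n : ℝ) * (n * n))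
    linarith only [g5]
  have g6 : 0 ≤ n * Real.log 2 := by positivity
  have g7 : 0 ≤ n * n * Real.log 2 := by positivity
  have g8 : (C₁ + n * Real.log 2 + K₁ + n * n * Real.log 2) * (L / κ + γ + κ + 1 + ε * L) =
      C₁ * (L / κ + 1) + C₁ * (γ + κ + ε * L) + n * Real.log 2 * (γ + κ) +
      n * Real.log 2 * (L / κ + 1 + ε * L) + K₁ * (γ + κ) + K₁ * (L / κ + 1 + ε * L) +
      n * n * Real.log 2 * (ε * L) + n * n * Real.log 2 * (L / κ + γ + κ + 1) := by ring
  rw [g8]
  have b1 : 0 ≤ C₁ * (γ + κ + ε * L) := mul_nonneg hC₁ (by linarith only [hκ0, hεL])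
  have b2 : 0 ≤ n * Real.log 2 * (L / κ + 1 + ε * L) := mul_nonneg g6 (by linarith only [hLκ, hεL])
  have b3 : 0 ≤ K₁ * (L / κ + 1 + ε * L) := mul_nonneg hK₁0 (by linarith only [hLκ, hεL])
  have b4 : 0 ≤ n * n * Real.log 2 * (L / κ + γ + κ + 1) := mul_nonneg g7 (by linarith only [hκ0, hLκ])
  linarith only [g1, g2, g3, b1, b2, b3, b4]

end Pool.KS3
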