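import Pool.Agent.H80.KAL.BUD
import Pool.Agent.H68.KAL.RIK

/-!
# Remez inequality on leaves

A polynomial (in space and time) of degree `D` depending on a label `b`, evaluated along a chain
of points and lines of a leaf. The forward budget costs only `2 D` times the mutual information
of `b` and the starting point. At the end of the chain the point is almost uniform on the leaf,
where the polynomial has some degree `k`, and the inequality in several variables is applied: the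
constant `K ≥ 2 k` is multiplied only with the small deficit at the end of the chain.
-/

set_option autoImplicit false

namespace Pool.KAL

open Finset Real MeasureTheory
open Pool.Agent.H49.Ent Pool.Agent.H32.Dense Pool.STK Pool.KAF

/-- Remez inequality in the mean given a context, several variables, for a family of
polynomials. -/
def RKXStmt : Prop :=
  ∀ d k K : ℕ, 2 * k ≤ K → ∃ C : ℝ, 0 ≤ C ∧ ∀ (Ω ι κ : Type) [Fintype Ω] (p : Ω → ℝ) (N : ℕ)
    (Y : Ω → Fin d → Fin N) (c : Ω → κ) (P : κ → ι → MvPolynomial (Fin d) ℝ) (S : κ → ℝ)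
    (g : Ω → ℝ), IsLaw p → 0 < N →
    (∀ ω, 0 < p ω → 0 < S (c ω) ∧ ∃ j, (∀ i, (P (c ω) j).degreeOf i ≤ k) ∧
      (∃ s : Fin d → ℝ, (∀ i, s i ∈ Set.Icc (0 : ℝ) 1) ∧
        S (c ω) ≤ |MvPolynomial.eval s (P (c ω) j)|) ∧
      ∀ ω', 0 < p ω' → c ω' = c ω →
        |MvPolynomial.eval (fun i => ((Y ω' i : ℕ) : ℝ) / N) (P (c ω) j)| ≤ Real.exp (g ω')) →
    (∀ ω, 0 < p ω → S (c ω) / (N : ℝ) ^ K ≤ Real.exp (g ω)) →
    Ex p (fun ω => Real.log (S (c ω))) - K * ((d * Real.log N - CH p Y c) + C) ≤ Ex p g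

/-- Entropy part of the forward budget, with the mutual information of the label and the first
point. -/
def BUIStmt : Prop :=
  ∀ (Ω X L B Y T : Type) [Fintype Ω] (p : Ω → ℝ) (n : ℕ) (x : ℕ → Ω → X) (l : ℕ → Ω → L)
    (b : Ω → B) (y : Ω → Y) (τ : ℕ → X → T), IsLaw p →
    (∀ i < n, CH p b (fun ω => (x i ω, (l i ω, y ω))) = CH p b (fun ω => (x i ω, y ω))) →
    (∀ i < n, CH p b (fun ω => (l i ω, (x (i + 1) ω, y ω))) =
      CH p b (fun ω => (l i ω, y ω))) →
    ∑ i ∈ range n, (CH p (fun ω => τ i (x i ω)) (fun ω => (l i ω, y ω)) -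
      CH p (fun ω => τ i (x i ω)) (fun ω => (l i ω, (b ω, y ω)))) ≤
      CH p b (fun ω => (x n ω, y ω)) - CH p b (fun ω => (x 0 ω, y ω))

/-- **Remez inequality on leaves.** -/
def LRMStmt : Prop :=
  ∀ D d k K : ℕ, 2 * k ≤ K → ∃ C : ℝ, 0 ≤ C ∧
    ∀ (Ω X L B Y ι ι' : Type) [Fintype Ω] (p : Ω → ℝ) (N n : ℕ)
    (x : ℕ → Ω → X) (l : ℕ → Ω → L) (b : Ω → B) (y : Ω → Y) (τ : X → ℕ) (h : B → X → ℝ)
    (M : B → L → ℝ) (P : B → L → ι → Polynomial ℝ) (c₁ e : ℝ)
    (V : Y → X → Fin d → Fin N) (Q : B → Y → ι' → MvPolynomial (Fin d) ℝ) (S : B → Y → ℝ),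
    IsLaw p → 0 < N →
    (∀ i < n, ∀ ω, τ (x i ω) < N) →
    (∀ i < n, ∀ ω, 0 < p ω → ∃ j, (P (b ω) (l i ω) j).natDegree ≤ D ∧
      (∃ s ∈ Set.Icc (0 : ℝ) 1, Real.exp (M (b ω) (l i ω)) ≤
        |(P (b ω) (l i ω) j).eval s|) ∧
      ∀ ω', 0 < p ω' → b ω' = b ω → l i ω' = l i ω →
        |(P (b ω) (l i ω) j).eval ((τ (x i ω') : ℝ) / N)| ≤
          Real.exp (h (b ω') (x i ω') + c₁)) →
    (∀ i < n, ∀ ω, 0 < p ω → M (b ω) (l i ω) - D * Real.log N ≤ h (b ω) (x i ω) + c₁) →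
    (∀ i < n, ∀ ω, 0 < p ω → h (b ω) (x (i + 1) ω) ≤ M (b ω) (l i ω) + c₁) →
    (∀ i < n, CH p b (fun ω => (x i ω, (l i ω, y ω))) = CH p b (fun ω => (x i ω, y ω))) →
    (∀ i < n, CH p b (fun ω => (l i ω, (x (i + 1) ω, y ω))) =
      CH p b (fun ω => (l i ω, y ω))) →
    (∀ i < n, Real.log N - CH p (fun ω => τ (x i ω)) (fun ω => (l i ω, y ω)) ≤ e) →
    (∀ ω, 0 < p ω → 0 < S (b ω) (y ω) ∧ ∃ j, (∀ i, (Q (b ω) (y ω) j).degreeOf i ≤ k) ∧
      (∃ s : Fin d → ℝ, (∀ i, s i ∈ Set.Icc (0 : ℝ) 1) ∧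
        S (b ω) (y ω) ≤ |MvPolynomial.eval s (Q (b ω) (y ω) j)|) ∧
      ∀ ω', 0 < p ω' → b ω' = b ω → y ω' = y ω →
        |MvPolynomial.eval (fun i => ((V (y ω') (x n ω') i : ℕ) : ℝ) / N) (Q (b ω) (y ω) j)| ≤
          Real.exp (h (b ω') (x n ω') + c₁)) →
    (∀ ω, 0 < p ω → S (b ω) (y ω) / (N : ℝ) ^ K ≤ Real.exp (h (b ω) (x n ω) + c₁)) →
    Ex p (fun ω => Real.log (S (b ω) (y ω))) ≤ Ex p (fun ω => h (b ω) (x 0 ω)) +
      2 * D * ((CH p b y - CH p b (fun ω => (x 0 ω, y ω))) + n * (e + C)) + n * (2 * c₁) +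
      K * ((d * Real.log N - CH p (fun ω => V (y ω) (x n ω)) (fun ω => (b ω, y ω))) + C) + c₁

theorem rkx_thm (hRIK : RIKStmt) : RKXStmt := by
  classical
  intro d k K hkK
  obtain ⟨C, hC, hC'⟩ := hRIK d k K hkK
  refine ⟨C, hC, ?_⟩
  intro Ω ι κ _ p N Y c P S g hp hN0 hP hS
  have hp0 := hp.nonneg
  have hN : (0 : ℝ) < N := by exact_mod_cast hN0
  -- the inequality under each conditioned law
  have key : ∀ z ∈ univ.image c, law p c z * (Ex (cond p c z) (fun ω => Real.log (S (c ω))) -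
      K * ((d * Real.log N - H (cond p c z) Y) + C)) ≤ law p c z * Ex (cond p c z) g := by
    intro z _
    rcases (law_nonneg hp0 c z).eq_or_lt with h0 | h0
    · rw [← h0]
      simp
    · refine mul_le_mul_of_nonneg_left ?_ h0.le
      obtain ⟨ω₀, hω₀, rfl⟩ : ∃ ω, 0 < p ω ∧ c ω = z := by
        by_contra hcon
        push Not at hcon
        have : law p c z = 0 := by
          unfold law
          refine Finset.sum_eq_zero fun ω _ => ?_
          split_ifs with h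
          · exact le_antisymm (not_lt.mp fun h' => hcon ω h' h) (hp0 ω)
          · rfl
        rw [this] at h0
        exact lt_irrefl _ h0
      obtain ⟨hS0, j, hdeg, hs, hj⟩ := hP ω₀ hω₀
      have hlaw : IsLaw (cond p c (c ω₀)) :=
        ⟨fun ω => cond_nonneg hp0 c _ ω, sum_cond p c h0.ne'⟩
      have h1 := hC' Ω (cond p c (c ω₀)) N Y (P (c ω₀) j) (S (c ω₀)) hlaw hdeg hS0 hs
      have h2 : Ex (cond p c (c ω₀)) (fun ω => Real.log (S (c ω))) = Real.log (S (c ω₀)) := by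
        unfold Ex
        have h3 : ∀ ω, cond p c (c ω₀) ω * Real.log (S (c ω)) =
            cond p c (c ω₀) ω * Real.log (S (c ω₀)) := by
          intro ω
          by_cases h : c ω = c ω₀
          · rw [h]
          · unfold Pool.Agent.H49.Ent.cond
            rw [if_neg h]
            simp
        rw [Finset.sum_congr rfl fun ω _ => h3 ω, ← Finset.sum_mul, hlaw.sum_one, one_mul]
      rw [h2]
      refine h1.trans (Ex_mono hlaw.nonneg fun ω hω => ?_)
      obtain ⟨hω1, hω2⟩ := (cond_pos_iff hp0 c (c ω₀) ω).mp hω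
      have h4 : max |MvPolynomial.eval (fun i => ((Y ω i : ℕ) : ℝ) / N) (P (c ω₀) j)|
          (S (c ω₀) / (N : ℝ) ^ K) ≤ Real.exp (g ω) := by
        refine max_le (hj ω hω1 hω2) ?_
        have := hS ω hω1
        rwa [hω2] at this
      have h5 : 0 < max |MvPolynomial.eval (fun i => ((Y ω i : ℕ) : ℝ) / N) (P (c ω₀) j)|
          (S (c ω₀) / (N : ℝ) ^ K) :=
        lt_of_lt_of_le (by positivity) (le_max_right _ _)
      calc Real.log (max |MvPolynomial.eval (fun i => ((Y ω i : ℕ) : ℝ) / N) (P (c ω₀) j)|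
            (S (c ω₀) / (N : ℝ) ^ K))
          ≤ Real.log (Real.exp (g ω)) := Real.log_le_log h5 h4
        _ = g ω := Real.log_exp _
  have hsum := Finset.sum_le_sum key
  rw [← rix_ex p hp0 c g] at hsum
  refine le_trans (le_of_eq ?_) hsum
  have e1 : ∀ z ∈ univ.image c, law p c z * (Ex (cond p c z) (fun ω => Real.log (S (c ω))) -
      K * ((d * Real.log N - H (cond p c z) Y) + C)) =
      law p c z * Ex (cond p c z) (fun ω => Real.log (S (c ω))) -
        K * ((d * Real.log N + C) * law p c z - law p c z * H (cond p c z) Y) := by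
    intro z _
    ring
  rw [Finset.sum_congr rfl e1, Finset.sum_sub_distrib, ← Finset.mul_sum, Finset.sum_sub_distrib,
    ← Finset.mul_sum, sum_law, hp.sum_one, ← CH_eq_sum hp0, ← rix_ex p hp0 c]
  ring

theorem bui_thm : BUIStmt := by
  intro Ω X L B Y T _ p n x l b y τ hp h1 h2
  have hp0 := hp.nonneg
  have key : ∀ i ∈ range n, (CH p (fun ω => τ i (x i ω)) (fun ω => (l i ω, y ω)) -
      CH p (fun ω => τ i (x i ω)) (fun ω => (l i ω, (b ω, y ω)))) ≤
      CH p b (fun ω => (x (i + 1) ω, y ω)) - CH p b (fun ω => (x i ω, y ω)) := by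
    intro i hi
    have hi' := Finset.mem_range.mp hi
    have a1 := bud_dpi hp0 (x i) (τ i) b (fun ω => (l i ω, y ω))
    have a2 : CH p (fun ω => τ i (x i ω)) (fun ω => (l i ω, (b ω, y ω))) =
        CH p (fun ω => τ i (x i ω)) (fun ω => (b ω, (l i ω, y ω))) := by
      refine CH_congr hp0 (fun _ _ _ _ h => (Prod.ext_iff.mp h).1)
        (fun _ _ _ _ h => (Prod.ext_iff.mp h).1) ?_ ?_ <;>
      · intro ω ω' _ _ h
        simp only [Prod.mk.injEq] at h ⊢
        tauto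
    have a3 := h1 i hi'
    have a4 := h2 i hi'
    have a5 : CH p b (fun ω => (l i ω, (x (i + 1) ω, y ω))) ≤
        CH p b (fun ω => (x (i + 1) ω, y ω)) :=
      CH_mono_cond hp0 (fun ω ω' _ _ h => (Prod.ext_iff.mp h).2)
    rw [a2]
    linarith
  refine (Finset.sum_le_sum key).trans ?_
  rw [Finset.sum_range_sub (fun i => CH p b (fun ω => (x i ω, y ω)))]

theorem lrm_thm (hSTP : STPStmt) (hBUI : BUIStmt) (hRKX : RKXStmt) : LRMStmt := by
  intro D d k K hkK
  obtain ⟨C, hC, hC'⟩ := hSTP D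
  obtain ⟨C₂, hC₂, hC₂'⟩ := hRKX d k K hkK
  refine ⟨max C C₂, le_max_of_le_left hC, ?_⟩
  intro Ω X L B Y ι ι' _ p N n x l b y τ h M P c₁ e V Q S hp hN0 h1 h2 h3 h4 h5 h6 h7 h8 h9
  have hp0 := hp.nonneg
  have step : ∀ i ∈ range n, Ex p (fun ω => h (b ω) (x (i + 1) ω)) -
      Ex p (fun ω => h (b ω) (x i ω)) ≤
      2 * D * (CH p (fun ω => τ (x i ω)) (fun ω => (l i ω, y ω)) -
        CH p (fun ω => τ (x i ω)) (fun ω => (l i ω, (b ω, y ω)))) +
        (2 * D * (e + C) + 2 * c₁) := by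
    intro i hi
    have hi' := Finset.mem_range.mp hi
    have a1 := hC' Ω X L B Y ι p N (x i) (x (i + 1)) (l i) b y (fun ω => τ (x i ω)) h M P c₁ hp
      (h1 i hi') (h2 i hi') (h3 i hi') (h4 i hi')
    have a2 := h7 i hi'
    have a3 : (0 : ℝ) ≤ 2 * D := by positivity
    have a4 := mul_le_mul_of_nonneg_left a2 a3
    linarith
  have hs := Finset.sum_le_sum step
  rw [Finset.sum_range_sub (fun i => Ex p (fun ω => h (b ω) (x i ω))), Finset.sum_add_distrib,
    ← Finset.mul_sum, Finset.sum_const, Finset.card_range, nsmul_eq_mul] at hs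
  have hb := hBUI Ω X L B Y ℕ p n x l b y (fun _ => τ) hp h5 h6
  have a3 : (0 : ℝ) ≤ 2 * D := by positivity
  have hb' := mul_le_mul_of_nonneg_left hb a3
  have hcond : CH p b (fun ω => (x n ω, y ω)) ≤ CH p b y :=
    CH_mono_cond hp0 (fun ω ω' _ _ h => (Prod.ext_iff.mp h).2)
  have hcond' := mul_le_mul_of_nonneg_left hcond a3
  -- the end of the chain
  have hend := hC₂' Ω ι' (B × Y) p N (fun ω => V (y ω) (x n ω)) (fun ω => (b ω, y ω))
    (fun c j => Q c.1 c.2 j) (fun c => S c.1 c.2) (fun ω => h (b ω) (x n ω) + c₁) hp hN0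
    (by
      intro ω hω
      obtain ⟨hS0, j, hj1, hj2, hj3⟩ := h8 ω hω
      refine ⟨hS0, j, hj1, hj2, ?_⟩
      intro ω' hω' hc
      have e1 := Prod.ext_iff.mp hc
      exact hj3 ω' hω' e1.1 e1.2)
    h9
  have h6' : Ex p (fun ω => h (b ω) (x n ω) + c₁) = Ex p (fun ω => h (b ω) (x n ω)) + c₁ := by
    rw [Ex_add, Ex_const hp.sum_one]
  rw [h6'] at hend
  simp only at hend
  have hn : (0 : ℝ) ≤ n := Nat.cast_nonneg n
  have hK : (0 : ℝ) ≤ K := Nat.cast_nonneg K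
  have m1 : 2 * D * (n * C) ≤ 2 * D * (n * max C C₂) :=
    mul_le_mul_of_nonneg_left (mul_le_mul_of_nonneg_left (le_max_left _ _) hn) a3
  have m2 : K * C₂ ≤ K * max C C₂ := mul_le_mul_of_nonneg_left (le_max_right _ _) hK
  nlinarith [hs, hb', hcond', hend, m1, m2]

end Pool.KAL
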