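import Pool.Agent.H70.KAL.TI

/-!
# Laws which are nearly invariant under a finite set of translations

If the law of `X` (with side information `V`) is nearly invariant under a finite set of
translations which separates the cells of a fine partition then the fine cell of `X` has large
entropy given the coarse cell.
-/

set_option autoImplicit false

namespace Pool.KAL

open Finset Real
open Pool.Agent.H49.Ent Pool.Agent.H32.Dense Pool.STK Pool.KAF
open TI

/-- Entropy of the fine cell given the coarse cell, for a law nearly invariant under the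
translations `h j`, `j ∈ J`. At most `r` of the translated points are in one fine cell; the coarse
cells of the translated points differ by elements of `I` from the coarse cell of the point. -/
theorem gti_thm {Ω U G S T ι : Type} [Fintype Ω] [AddCommGroup G] [AddCommGroup T] {p : Ω → ℝ}
    (hp : IsLaw p) (X : Ω → G) (V : Ω → U) (J : Finset ι) (h : ι → G) (F : G → S) (Q : G → T)
    (pr : S → T) (hQ : ∀ g, Q g = pr (F g)) (I : Finset T) (h0 : 0 ∈ I) (r : ℕ) (e : ℝ)
    (hT : ∀ j ∈ J, TIV p X V (h j) e)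
    (hcount : ∀ (g : G) (s : S), ∀ J' ⊆ J, (∀ j ∈ J', F (g + h j) = s) → J'.card ≤ r)
    (hI : ∀ g, ∀ j ∈ J, Q (g + h j) - Q g ∈ I) (hr : 0 < r) (h2 : 2 * r ≤ J.card) :
    (1 - 2 * e) * Real.log (J.card / (2 * r)) - Real.log I.card ≤
      CH p (fun ω => F (X ω)) (fun ω => (Q (X ω), V ω)) := by
  classical
  have hp0 := hp.nonneg
  have hr0 : (0 : ℝ) < r := by exact_mod_cast hr
  have hJ0 : (0 : ℝ) < J.card := by
    have : 0 < J.card := by omega
    exact_mod_cast this
  have hL : 0 ≤ Real.log ((J.card : ℝ) / (2 * r)) := Real.log_nonneg (by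
    rw [le_div_iff₀ (by positivity), one_mul]
    exact_mod_cast h2)
  have hI0 : (0 : ℝ) < I.card := by
    have : 0 < I.card := Finset.card_pos.mpr ⟨0, h0⟩
    exact_mod_cast this
  set Ua : Ω → S × U := fun ω => (F (X ω), V ω) with hUa
  set Qb : Ω → T × U := fun ω => (Q (X ω), V ω) with hQb
  set nu : S × U → ℝ := fun s =>
    (∑ j ∈ J, law p (fun ω => (F (X ω + h j), V ω)) s) / J.card with hnu
  set Fs : Finset (S × U) := univ.image Ua with hFs
  set Bad : Finset (S × U) := Fs.filter fun s => 2 * nu s < law p Ua s with hBad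
  -- step 1: the bad values are rare
  have hj : ∀ j ∈ J, ∑ s ∈ Bad, law p Ua s - e ≤
      ∑ s ∈ Bad, law p (fun ω => (F (X ω + h j), V ω)) s := by
    intro j hj
    have h1 := hT j hj {z | (F z.1, z.2) ∈ Bad}
    have e1 : Pr p {ω | (X ω, V ω) ∈ {z : G × U | (F z.1, z.2) ∈ Bad}} =
        ∑ s ∈ Bad, law p Ua s := by
      rw [← Pr_eq_sum_law]
      exact Pr_congr p fun ω => Iff.rfl
    have e2 : Pr p {ω | (X ω + h j, V ω) ∈ {z : G × U | (F z.1, z.2) ∈ Bad}} =
        ∑ s ∈ Bad, law p (fun ω => (F (X ω + h j), V ω)) s := by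
      rw [← Pr_eq_sum_law]
      exact Pr_congr p fun ω => Iff.rfl
    rw [e1, e2, abs_le] at h1
    linarith [h1.2]
  have hbad : ∑ s ∈ Bad, law p Ua s ≤ 2 * e := by
    have h1 : ∑ s ∈ Bad, nu s = (∑ j ∈ J,
        ∑ s ∈ Bad, law p (fun ω => (F (X ω + h j), V ω)) s) / J.card := by
      simp only [hnu]
      rw [← Finset.sum_div, Finset.sum_comm]
    have h2 : (J.card : ℝ) * (∑ s ∈ Bad, law p Ua s - e) ≤ ∑ j ∈ J,
        ∑ s ∈ Bad, law p (fun ω => (F (X ω + h j), V ω)) s := by
      have := Finset.card_nsmul_le_sum J _ _ hj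
      rwa [nsmul_eq_mul] at this
    have h3 : ∑ s ∈ Bad, law p Ua s - e ≤ ∑ s ∈ Bad, nu s := by
      rw [h1, le_div_iff₀ hJ0]
      linarith
    have h4 : ∑ s ∈ Bad, 2 * nu s ≤ ∑ s ∈ Bad, law p Ua s :=
      Finset.sum_le_sum fun s hs => (mem_filter.1 hs).2.le
    rw [← Finset.mul_sum] at h4
    linarith
  -- step 2: the upper bound for the law of the shifted variable
  have hup : ∀ s : S × U, J.card * nu s ≤ r * ∑ i ∈ I, law p Qb (pr s.1 - i, s.2) := by
    intro s
    have h1 : J.card * nu s = ∑ j ∈ J, law p (fun ω => (F (X ω + h j), V ω)) s := by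
      simp only [hnu]
      rw [mul_div_cancel₀ _ hJ0.ne']
    rw [h1, Finset.mul_sum]
    unfold law
    rw [Finset.sum_comm]
    have h3 : ∀ f : T → Ω → ℝ, ∑ i ∈ I, (r : ℝ) * ∑ ω, f i ω = ∑ ω, r * ∑ i ∈ I, f i ω := by
      intro f
      rw [← Finset.mul_sum, Finset.sum_comm, Finset.mul_sum]
    refine le_trans ?_ (le_of_eq (h3 _).symm)
    refine Finset.sum_le_sum fun ω _ => ?_
    have hpω := hp0 ω
    by_cases hex : ∃ j ∈ J, (F (X ω + h j), V ω) = s
    · obtain ⟨j, hj, hs⟩ := hex
      have hs1 : F (X ω + h j) = s.1 := congrArg Prod.fst hs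
      have hs2 : V ω = s.2 := congrArg Prod.snd hs
      have h4 : ∑ j ∈ J, (if (F (X ω + h j), V ω) = s then p ω else 0) ≤ r * p ω := by
        rw [← Finset.sum_filter, Finset.sum_const, nsmul_eq_mul]
        refine mul_le_mul_of_nonneg_right ?_ hpω
        have h5 := hcount (X ω) s.1 (J.filter fun j => (F (X ω + h j), V ω) = s)
          (Finset.filter_subset _ _) (fun j hj => congrArg Prod.fst (Finset.mem_filter.mp hj).2)
        exact_mod_cast h5
      have h5 : p ω ≤ ∑ i ∈ I, (if Qb ω = (pr s.1 - i, s.2) then p ω else 0) := by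
        have h6 : Qb ω = (pr s.1 - (Q (X ω + h j) - Q (X ω)), s.2) := by
          refine Prod.ext ?_ hs2
          simp only [hQb]
          rw [← hs1, ← hQ]
          abel
        have h7 := Finset.single_le_sum
          (f := fun i => if Qb ω = (pr s.1 - i, s.2) then p ω else 0)
          (fun i _ => by split_ifs <;> linarith) (hI (X ω) j hj)
        simp only [if_pos h6] at h7
        exact h7
      refine le_trans (le_of_eq (Finset.sum_congr rfl fun j _ => ?_))
        (h4.trans (mul_le_mul_of_nonneg_left ?_ hr0.le))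
      · by_cases hh : (F (X ω + h j), V ω) = s
        · rw [if_pos hh, if_pos hh]
        · rw [if_neg hh, if_neg hh]
      · refine le_trans h5 (le_of_eq (Finset.sum_congr rfl fun j _ => ?_))
        by_cases hh : Qb ω = (pr s.1 - j, s.2)
        · rw [if_pos hh, if_pos hh]
        · rw [if_neg hh, if_neg hh]
    · rw [Finset.sum_eq_zero]
      · refine mul_nonneg hr0.le (Finset.sum_nonneg fun i _ => ?_)
        split_ifs <;> linarith
      · intro j hj
        rw [if_neg]
        intro h
        exact hex ⟨j, hj, h⟩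
  -- step 3: the ratios
  have hrat : ∀ i ∈ I, ∑ ω, p ω * (law p Qb ((Qb ω).1 - i, (Qb ω).2) / law p Qb (Qb ω)) ≤ 1 := by
    intro i _
    exact ratio_le p hp Qb (fun s : T × U => (s.1 - i, s.2)) (by
      intro s s' h
      have h1 := Prod.ext_iff.1 h
      exact Prod.ext (sub_left_injective h1.1) h1.2)
  have hCH : CH p (fun ω => F (X ω)) (fun ω => (Q (X ω), V ω)) = H p Ua - H p Qb := by
    unfold CH
    rw [H_congr hp0 (X := Ua) (Y := fun ω => (F (X ω), (Q (X ω), V ω)))]
    · intro ω ω' _ _ h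
      have h1 := Prod.ext_iff.1 h
      have h2 : F (X ω) = F (X ω') := h1.1
      exact Prod.ext h2 (Prod.ext (by simp only [hQ, h2]) h1.2)
    · intro ω ω' _ _ h
      have h1 := Prod.ext_iff.1 h
      exact Prod.ext h1.1 (Prod.ext_iff.1 h1.2).2
  rw [hCH]
  set y : Ω → ℝ := fun ω => ∑ i ∈ I, law p Qb ((Qb ω).1 - i, (Qb ω).2) / law p Qb (Qb ω) with hy
  have hterm : ∀ ω, p ω * ((if Ua ω ∈ Bad then 0 else Real.log ((J.card : ℝ) / (2 * r))) -
      (y ω / I.card - 1 + Real.log I.card)) ≤
      -(p ω * Real.log (law p Ua (Ua ω))) + p ω * Real.log (law p Qb (Qb ω)) := by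
    intro ω
    rcases (hp0 ω).eq_or_lt with h0' | h0'
    · rw [← h0']
      simp
    have u0 : 0 < law p Ua (Ua ω) := law_pos hp0 Ua h0'
    have q0 : 0 < law p Qb (Qb ω) := law_pos hp0 Qb h0'
    have hy1 : 1 ≤ y ω := by
      have h7 := Finset.single_le_sum
        (f := fun i => law p Qb ((Qb ω).1 - i, (Qb ω).2) / law p Qb (Qb ω))
        (fun i _ => div_nonneg (law_nonneg hp0 _ _) q0.le) h0
      have h8 : ((Qb ω).1 - (0 : T), (Qb ω).2) = Qb ω := by rw [sub_zero]
      simp only [h8, div_self q0.ne'] at h7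
      exact h7
    have hlogy : Real.log (y ω) ≤ y ω / I.card - 1 + Real.log I.card := by
      have h9 := Real.log_le_sub_one_of_pos (x := y ω / I.card) (by positivity)
      rw [Real.log_div (by linarith) hI0.ne'] at h9
      linarith
    rw [← mul_neg, ← mul_add]
    refine mul_le_mul_of_nonneg_left ?_ h0'.le
    by_cases hb : Ua ω ∈ Bad
    · rw [if_pos hb]
      have huq : law p Ua (Ua ω) ≤ law p Qb (Qb ω) := by
        refine law_mono_of_det hp0 ?_ h0'
        intro ω' ω'' _ _ h
        have h1 := Prod.ext_iff.1 h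
        have h2 : F (X ω') = F (X ω'') := h1.1
        exact Prod.ext (by simp only [hQb, hQ, h2]) h1.2
      have h3 := Real.log_le_log u0 huq
      have h4 := Real.log_nonneg hy1
      linarith
    · rw [if_neg hb]
      have hle : law p Ua (Ua ω) ≤ 2 * nu (Ua ω) := by
        by_contra hcon
        push Not at hcon
        exact hb (mem_filter.2 ⟨mem_image_of_mem _ (mem_univ _), hcon⟩)
      have h1 := hup (Ua ω)
      have hQ1 : pr (Ua ω).1 = (Qb ω).1 := by simp only [hUa, hQb, hQ]
      have hQ2 : (Ua ω).2 = (Qb ω).2 := rfl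
      rw [hQ1, hQ2] at h1
      have h2 : ∑ i ∈ I, law p Qb ((Qb ω).1 - i, (Qb ω).2) = law p Qb (Qb ω) * y ω := by
        simp only [hy]
        rw [Finset.mul_sum]
        refine Finset.sum_congr rfl fun i _ => ?_
        rw [mul_div_cancel₀ _ q0.ne']
      rw [h2] at h1
      have h3 : law p Ua (Ua ω) ≤ (law p Qb (Qb ω) * y ω) / (J.card / (2 * r)) := by
        rw [le_div_iff₀ (by positivity)]
        have h4 : law p Ua (Ua ω) * (J.card / (2 * r)) ≤ J.card * nu (Ua ω) / r := by
          rw [le_div_iff₀ hr0]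
          have h5 : law p Ua (Ua ω) * (J.card / (2 * r)) * r = law p Ua (Ua ω) * J.card / 2 := by
            field_simp
          rw [h5]
          have h6 := mul_le_mul_of_nonneg_right hle hJ0.le
          linarith
        refine h4.trans ?_
        rw [div_le_iff₀ hr0]
        linarith
      have h4 := Real.log_le_log u0 h3
      rw [Real.log_div (by positivity) (by positivity),
        Real.log_mul q0.ne' (by positivity)] at h4
      linarith
  have hsum := Finset.sum_le_sum fun ω (_ : ω ∈ univ) => hterm ω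
  have e1 : ∑ ω, (-(p ω * Real.log (law p Ua (Ua ω))) + p ω * Real.log (law p Qb (Qb ω))) =
      H p Ua - H p Qb := by
    unfold H
    rw [Finset.sum_add_distrib, Finset.sum_neg_distrib]
    ring
  rw [e1] at hsum
  refine le_trans ?_ hsum
  simp only [mul_sub, mul_add, Finset.sum_sub_distrib, Finset.sum_add_distrib, mul_one]
  have e2 : ∑ ω, p ω * (if Ua ω ∈ Bad then 0 else Real.log ((J.card : ℝ) / (2 * r))) =
      (1 - ∑ s ∈ Bad, law p Ua s) * Real.log ((J.card : ℝ) / (2 * r)) := by
    rw [← Pr_eq_sum_law, Pr_eq, ← hp.sum_one, ← Finset.sum_sub_distrib, Finset.sum_mul]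
    refine Finset.sum_congr rfl fun ω _ => ?_
    by_cases h : Ua ω ∈ Bad
    · simp [h]
    · simp [h]
  have e3 : ∑ ω, p ω * (y ω / I.card) ≤ 1 := by
    have h1 : ∑ ω, p ω * (y ω / I.card) = (∑ i ∈ I, ∑ ω, p ω *
        (law p Qb ((Qb ω).1 - i, (Qb ω).2) / law p Qb (Qb ω))) / I.card := by
      rw [Finset.sum_comm, Finset.sum_div]
      refine Finset.sum_congr rfl fun ω _ => ?_
      simp only [hy]
      rw [← Finset.mul_sum]
      ring
    rw [h1, div_le_one hI0]
    have h2 := Finset.sum_le_sum hrat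
    rw [Finset.sum_const, nsmul_eq_mul, mul_one] at h2
    exact h2
  have e4 : ∑ ω, p ω * Real.log I.card = Real.log I.card := by
    rw [← Finset.sum_mul, hp.sum_one, one_mul]
  rw [e2, e4, hp.sum_one]
  have h6 : (1 - 2 * e) * Real.log ((J.card : ℝ) / (2 * r)) ≤
      (1 - ∑ s ∈ Bad, law p Ua s) * Real.log ((J.card : ℝ) / (2 * r)) :=
    mul_le_mul_of_nonneg_right (by linarith) hL
  linarith

end Pool.KAL
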