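import Pool.Agent.H37.S3.Defs

/-!
# Entropic multilinear Kakeya inequality: one frame

The `n` lines `l j` through the point with the base coordinates `Y ω / 2 ^ L` have velocities
close to the columns of an invertible matrix `Mt`. Then the entropy of the point, given a context
`c`, is at least the sum of the entropies of the time given the lines, up to small errors.
-/

set_option autoImplicit false

namespace Pool.KS3

open Finset Real
open Pool.Agent.H49.Ent Pool.Agent.H32.Dense Pool.STK Pool.KAF Pool.KAL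

/-- Entropic multilinear Kakeya inequality for one frame. -/
def MKBStmt : Prop :=
  ∀ (n : ℕ) (C₀ : ℝ), 1 ≤ C₀ → ∃ C : ℝ, 0 ≤ C ∧
    ∀ (Ω Γ Λ : Type) [Fintype Ω] (r : Ω → ℝ) (L κ γ s : ℕ) (Y : Ω → Fin n → ℕ) (T : Ω → ℕ)
      (c : Ω → Γ) (l : Fin n → Ω → Λ) (A B : Λ → Fin n → ℝ) (Mt Iv : Fin n → Fin n → ℝ),
      IsLaw r → (∀ ω, T ω < 2 ^ L) →
      (∀ ω, 0 < r ω → ∀ j i, |(Y ω i : ℝ) / 2 ^ L -
        (A (l j ω) i + (T ω : ℝ) / 2 ^ L * B (l j ω) i)| ≤ C₀ / 2 ^ L) →
      (∀ a b, ∑ k, Iv a k * Mt k b = if a = b then 1 else 0) →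
      (∀ a b, |Iv a b| ≤ 2 ^ γ) →
      (∀ ω, 0 < r ω → ∀ j i, n * (2 : ℝ) ^ (γ + κ) * |B (l j ω) i - Mt i j| ≤ 1) →
      1 ≤ κ → κ * s + γ ≤ L →
      ∑ j, CH r T (fun ω => (l j ω, c ω)) ≤
        CH r Y c + n * ((L - κ * s : ℝ) * Real.log 2) + C * (s + 1)

namespace MKB

/-- Entropy of a vector and of its coordinates given the others. -/
lemma sum_CH_le {Ω Γ : Type} [Fintype Ω] {r : Ω → ℝ} (hr : ∀ ω, 0 ≤ r ω) {n : ℕ}
    (Z : Ω → Fin n → ℤ) (W : Ω → Γ) :
    ∑ j, CH r (fun ω => Z ω j) (fun ω => (Function.update (Z ω) j 0, W ω)) ≤ CH r Z W := by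
  classical
  -- truncated vectors
  set Zm : ℕ → Ω → Fin n → ℤ := fun m ω j => if (j : ℕ) < m then Z ω j else 0 with hZm
  have key : ∀ m, (hm : m ≤ n) →
      ∑ j ∈ (univ : Finset (Fin n)).filter (fun j : Fin n => (j : ℕ) < m),
      CH r (fun ω => Z ω j) (fun ω => (Function.update (Z ω) j 0, W ω)) ≤ CH r (Zm m) W := by
    intro m
    induction m with
    | zero =>
      intro _
      simp only [Nat.not_lt_zero, Finset.filter_false, Finset.sum_empty]
      exact CH_nonneg hr _ _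
    | succ m ih =>
      intro hm
      have ih' := ih (by omega)
      have hfil : (univ : Finset (Fin n)).filter (fun j : Fin n => (j : ℕ) < m + 1) =
          insert (⟨m, by omega⟩ : Fin n)
            ((univ : Finset (Fin n)).filter (fun j : Fin n => (j : ℕ) < m)) := by
        ext j
        simp only [Finset.mem_filter, Finset.mem_univ, true_and, Finset.mem_insert, Fin.ext_iff]
        omega
      rw [hfil, Finset.sum_insert (by simp)]
      set jm : Fin n := ⟨m, by omega⟩ with hjm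
      have e1 : CH r (Zm (m + 1)) W = CH r (fun ω => (Z ω jm, Zm m ω)) W := by
        refine (CH_congr hr ?_ ?_ (fun _ _ _ _ h => h) (fun _ _ _ _ h => h)).symm
        · intro ω ω' _ _ h
          have h1 := (Prod.ext_iff.mp h).1
          have h2 := (Prod.ext_iff.mp h1).1
          have h3 := (Prod.ext_iff.mp h1).2
          funext j
          simp only [hZm] at h2 h3 ⊢
          by_cases hj : (j : ℕ) < m + 1
          · rw [if_pos hj, if_pos hj]
            by_cases hj' : (j : ℕ) < m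
            · have := congrFun h3 j
              simpa only [if_pos hj'] using this
            · have : j = jm := by
                apply Fin.ext
                simp only [hjm]
                omega
              rw [this]
              exact h2
          · rw [if_neg hj, if_neg hj]
        · intro ω ω' _ _ h
          have h1 := (Prod.ext_iff.mp h).1
          refine Prod.ext ?_ ?_
          · have := congrFun h1 jm
            simpa only [hZm, hjm, Nat.lt_succ_self, if_true] using this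
          · funext j
            have := congrFun h1 j
            simp only [hZm] at this ⊢
            by_cases hj' : (j : ℕ) < m
            · have hj2 : (j : ℕ) < m + 1 := by omega
              rw [if_pos hj', if_pos hj']
              simpa only [if_pos hj2] using this
            · rw [if_neg hj', if_neg hj']
      have e2 := CH_chain hr (fun ω => Z ω jm) (Zm m) W
      have e3 : CH r (fun ω => Z ω jm) (fun ω => (Function.update (Z ω) jm 0, W ω)) ≤
          CH r (fun ω => Z ω jm) (fun ω => (Zm m ω, W ω)) := by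
        refine CH_mono_cond hr ?_
        intro ω ω' _ _ h
        have h1 := (Prod.ext_iff.mp h).1
        have h2 := (Prod.ext_iff.mp h).2
        refine Prod.ext ?_ h2
        funext j
        simp only [hZm]
        by_cases hj' : (j : ℕ) < m
        · rw [if_pos hj', if_pos hj']
          have := congrFun h1 j
          have hne : j ≠ jm := by
            intro hcon
            rw [hcon] at hj'
            simp [hjm] at hj'
          simpa only [Function.update_of_ne hne] using this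
        · rw [if_neg hj', if_neg hj']
      linarith only [ih', e1, e2, e3]
  have hk := key n le_rfl
  have hfil : (univ : Finset (Fin n)).filter (fun j : Fin n => (j : ℕ) < n) = univ := by
    ext j
    simp
  rw [hfil] at hk
  refine hk.trans (le_of_eq ?_)
  have hZn : Zm n = Z := by
    funext ω j
    simp only [hZm, Fin.is_lt, if_true]
  rw [hZn]

/-- The time rounded down. -/
noncomputable def Tf (L : ℕ) {Ω : Type} (T : Ω → ℕ) (i : ℕ) (ω : Ω) : ℤ := ⌊(2 : ℝ) ^ i * ((T ω : ℝ) / 2 ^ L)⌋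

/-- Floors at a finer scale determine floors at a coarser scale. -/
lemma floor_det {x y : ℝ} {i k : ℕ} (h : ⌊(2 : ℝ) ^ (i + k) * x⌋ = ⌊(2 : ℝ) ^ (i + k) * y⌋) :
    ⌊(2 : ℝ) ^ i * x⌋ = ⌊(2 : ℝ) ^ i * y⌋ := by
  have key : ∀ z : ℝ, ⌊(2 : ℝ) ^ i * z⌋ = ⌊(2 : ℝ) ^ (i + k) * z⌋ / ((2 ^ k : ℕ) : ℤ) := by
    intro z
    rw [← Int.floor_div_natCast]
    congr 1
    push_cast
    rw [pow_add]
    field_simp
  rw [key x, key y, h]

lemma floor_diff {x y D : ℝ} (h : |x - y| ≤ D) : |((⌊x⌋ - ⌊y⌋ : ℤ) : ℝ)| ≤ D + 1 := by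
  have h1 := Int.floor_le x
  have h2 := Int.lt_floor_add_one x
  have h3 := Int.floor_le y
  have h4 := Int.lt_floor_add_one y
  rw [abs_le] at h ⊢
  push_cast
  constructor <;> linarith [h.1, h.2]

lemma of_floor_eq {x y : ℝ} (h : ⌊x⌋ = ⌊y⌋) : |x - y| ≤ 1 := by
  have h1 := Int.floor_le x
  have h2 := Int.lt_floor_add_one x
  have h3 := Int.floor_le y
  have h4 := Int.lt_floor_add_one y
  rw [h] at h1 h2
  rw [abs_le]
  constructor <;> linarith

end MKB

open MKB in
theorem mkb_thm : MKBStmt := by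
  classical
  intro n C₀ hC₀
  set C₃ : ℝ := 3 + 2 * n * C₀ with hC₃
  set C₄ : ℝ := 3 + 4 * n * C₀ with hC₄
  have hn0 : (0 : ℝ) ≤ n := Nat.cast_nonneg n
  have hnC : 0 ≤ n * C₀ := mul_nonneg hn0 (by linarith only [hC₀])
  have hC₃0 : 0 ≤ C₃ := by rw [hC₃]; nlinarith only [hnC]
  have hC₄0 : 0 ≤ C₄ := by rw [hC₄]; nlinarith only [hnC]
  have hl3 : 0 ≤ Real.log (2 * C₃ + 1) := Real.log_nonneg (by linarith)
  have hl4 : 0 ≤ Real.log (2 * C₄ + 1) := Real.log_nonneg (by linarith)
  set C₅ : ℝ := n * (2 * (n * Real.log (2 * C₃ + 1)) + Real.log (2 * C₄ + 1)) with hC₅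
  have hC₅0 : 0 ≤ C₅ := by rw [hC₅]; positivity
  refine ⟨C₅ + n * Real.log 3, by
    have : 0 ≤ Real.log 3 := Real.log_nonneg (by norm_num)
    positivity, ?_⟩
  intro Ω Γ Λ _ r L κ γ s Y T c l A B Mt Iv hr hT hY hinv hIv hB hκ hs
  have hr0 := hr.nonneg
  have hr1 := hr.sum_one
  have hM : (0 : ℝ) < 2 ^ L := by positivity
  -- oblique coordinates
  set xi : Ω → Fin n → ℝ := fun ω a => ∑ k, Iv a k * ((Y ω k : ℝ) / 2 ^ L) with hxi
  set X : ℕ → Ω → Fin n → ℤ := fun i ω a => ⌊(2 : ℝ) ^ i * xi ω a⌋ with hX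
  -- difference of two points on the same line
  have hdiff : ∀ (j : Fin n) (ω ω' : Ω), 0 < r ω → 0 < r ω' → l j ω = l j ω' → ∀ a,
      ∃ ρ e : ℝ, xi ω a - xi ω' a =
        (((T ω : ℝ) - T ω') / 2 ^ L) * ((if a = j then 1 else 0) + ρ) + e ∧
        |ρ| * 2 ^ κ ≤ 1 ∧ |e| * 2 ^ L ≤ 2 * (n * C₀) * 2 ^ γ := by
    intro j ω ω' hω hω' hl a
    refine ⟨∑ k, Iv a k * (B (l j ω) k - Mt k j),
      ∑ k, Iv a k * (((Y ω k : ℝ) / 2 ^ L - (A (l j ω) k + (T ω : ℝ) / 2 ^ L * B (l j ω) k)) -
        ((Y ω' k : ℝ) / 2 ^ L - (A (l j ω') k + (T ω' : ℝ) / 2 ^ L * B (l j ω') k))), ?_, ?_, ?_⟩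
    · rw [← hinv a j, hl]
      simp only [hxi]
      rw [← Finset.sum_sub_distrib, ← Finset.sum_add_distrib, Finset.mul_sum,
        ← Finset.sum_add_distrib]
      refine Finset.sum_congr rfl fun k _ => ?_
      ring
    · rcases Nat.eq_zero_or_pos n with hn | hn
      · subst hn
        exact a.elim0
      · have hn' : (0 : ℝ) < n := by exact_mod_cast hn
        have hb : ∀ k, |B (l j ω) k - Mt k j| ≤ 1 / (n * (2 : ℝ) ^ (γ + κ)) := by
          intro k
          rw [le_div_iff₀ (by positivity)]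
          have := hB ω hω j k
          linarith only [this]
        have h1 : |∑ k, Iv a k * (B (l j ω) k - Mt k j)| ≤
            ∑ _k : Fin n, (2 : ℝ) ^ γ * (1 / (n * (2 : ℝ) ^ (γ + κ))) := by
          refine (Finset.abs_sum_le_sum_abs _ _).trans (Finset.sum_le_sum fun k _ => ?_)
          rw [abs_mul]
          exact mul_le_mul (hIv a k) (hb k) (abs_nonneg _) (by positivity)
        rw [Finset.sum_const, Finset.card_univ, Fintype.card_fin, nsmul_eq_mul] at h1
        have h2 : (n : ℝ) * ((2 : ℝ) ^ γ * (1 / (n * (2 : ℝ) ^ (γ + κ)))) = 1 / 2 ^ κ := by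
          rw [pow_add]
          field_simp
        rw [h2] at h1
        rwa [le_div_iff₀ (by positivity)] at h1
    · have he : ∀ k, |((Y ω k : ℝ) / 2 ^ L - (A (l j ω) k + (T ω : ℝ) / 2 ^ L * B (l j ω) k)) -
          ((Y ω' k : ℝ) / 2 ^ L - (A (l j ω') k + (T ω' : ℝ) / 2 ^ L * B (l j ω') k))| ≤
          2 * C₀ / 2 ^ L := by
        intro k
        have h1 := hY ω hω j k
        have h2 := hY ω' hω' j k
        have h3 : 2 * C₀ / (2 : ℝ) ^ L = C₀ / 2 ^ L + C₀ / 2 ^ L := by ring
        rw [h3]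
        exact (abs_sub _ _).trans (add_le_add h1 h2)
      have h1 : |∑ k, Iv a k * (((Y ω k : ℝ) / 2 ^ L -
          (A (l j ω) k + (T ω : ℝ) / 2 ^ L * B (l j ω) k)) -
          ((Y ω' k : ℝ) / 2 ^ L - (A (l j ω') k + (T ω' : ℝ) / 2 ^ L * B (l j ω') k)))| ≤
          ∑ _k : Fin n, (2 : ℝ) ^ γ * (2 * C₀ / 2 ^ L) := by
        refine (Finset.abs_sum_le_sum_abs _ _).trans (Finset.sum_le_sum fun k _ => ?_)
        rw [abs_mul]
        exact mul_le_mul (hIv a k) (he k) (abs_nonneg _) (by positivity)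
      rw [Finset.sum_const, Finset.card_univ, Fintype.card_fin, nsmul_eq_mul] at h1
      calc _ ≤ (n : ℝ) * ((2 : ℝ) ^ γ * (2 * C₀ / 2 ^ L)) * 2 ^ L :=
            mul_le_mul_of_nonneg_right h1 (by positivity)
        _ = 2 * (n * C₀) * 2 ^ γ := by field_simp
  -- the time
  set TT : Ω → ℤ := fun ω => (T ω : ℤ) with hTT
  -- one block
  have block : ∀ m < s, ∑ j, CH r (Tf L T (κ * (m + 1)))
      (fun ω => (l j ω, (c ω, Tf L T (κ * m) ω))) ≤
      CH r (X (κ * (m + 1))) (fun ω => (X (κ * m) ω, c ω)) + C₅ := by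
    intro m hm
    have him : κ * (m + 1) ≤ κ * s := Nat.mul_le_mul_left κ hm
    have hiL : κ * (m + 1) + γ ≤ L := by omega
    have hpow : (2 : ℝ) ^ (κ * (m + 1)) * 2 ^ γ ≤ 2 ^ L := by
      rw [← pow_add]
      exact pow_le_pow_right₀ (by norm_num) hiL
    have hpow2 : (2 : ℝ) ^ (κ * (m + 1)) = 2 ^ (κ * m) * 2 ^ κ := by
      rw [← pow_add]
      congr 1
    have hs1 := sum_CH_le hr0 (X (κ * (m + 1))) (fun ω => (X (κ * m) ω, c ω))
    refine le_trans ?_ (add_le_add_left hs1 C₅)
    rw [hC₅]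
    have hcard : (n : ℝ) * (2 * (n * Real.log (2 * C₃ + 1)) + Real.log (2 * C₄ + 1)) =
        ∑ _j : Fin n, (2 * (n * Real.log (2 * C₃ + 1)) + Real.log (2 * C₄ + 1)) := by
      rw [Finset.sum_const, Finset.card_univ, Fintype.card_fin, nsmul_eq_mul]
    rw [hcard, ← Finset.sum_add_distrib]
    refine Finset.sum_le_sum fun j _ => ?_
    set U : Ω → ℤ := fun ω => X (κ * (m + 1)) ω j with hU
    set V₁ : Ω → Fin n → ℤ := fun ω => Function.update (X (κ * (m + 1)) ω) j 0 with hV₁
    set V₂ : Ω → Fin n → ℤ := X (κ * m) with hV₂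
    set Kc : Ω → Λ × (Γ × ℤ) := fun ω => (l j ω, (c ω, Tf L T (κ * m) ω)) with hKc
    -- scale of the time difference
    have htime : ∀ ω ω', Tf L T (κ * m) ω = Tf L T (κ * m) ω' →
        |((T ω : ℝ) - T ω') / 2 ^ L| * 2 ^ (κ * m) ≤ 1 := by
      intro ω ω' h
      have h1 := of_floor_eq h
      have h2 : (2 : ℝ) ^ (κ * m) * ((T ω : ℝ) / 2 ^ L) - 2 ^ (κ * m) * ((T ω' : ℝ) / 2 ^ L) =
          (((T ω : ℝ) - T ω') / 2 ^ L) * 2 ^ (κ * m) := by ring
      rw [h2, abs_mul, abs_of_nonneg (by positivity : (0 : ℝ) ≤ 2 ^ (κ * m))] at h1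
      exact h1
    have herr : ∀ e : ℝ, |e| * 2 ^ L ≤ 2 * (n * C₀) * 2 ^ γ →
        2 ^ (κ * (m + 1)) * |e| ≤ 2 * (n * C₀) := by
      intro e he
      have h1 : (2 : ℝ) ^ (κ * (m + 1)) * |e| * 2 ^ L ≤ 2 * (n * C₀) * 2 ^ L := by
        calc (2 : ℝ) ^ (κ * (m + 1)) * |e| * 2 ^ L = 2 ^ (κ * (m + 1)) * (|e| * 2 ^ L) := by ring
          _ ≤ 2 ^ (κ * (m + 1)) * (2 * (n * C₀) * 2 ^ γ) :=
              mul_le_mul_of_nonneg_left he (by positivity)
          _ = 2 * (n * C₀) * (2 ^ (κ * (m + 1)) * 2 ^ γ) := by ring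
          _ ≤ 2 * (n * C₀) * 2 ^ L := mul_le_mul_of_nonneg_left hpow (by positivity)
      exact le_of_mul_le_mul_right h1 hM
    have hκm : (2 : ℝ) ^ (κ * m) ≤ 2 ^ (κ * (m + 1)) :=
      pow_le_pow_right₀ (by norm_num) (Nat.mul_le_mul_left κ (Nat.le_succ m))
    have hκ1 : (2 : ℝ) ≤ 2 ^ κ := by
      calc (2 : ℝ) = 2 ^ 1 := (pow_one _).symm
        _ ≤ 2 ^ κ := pow_le_pow_right₀ (by norm_num) hκ
    have hrho : ∀ ρ : ℝ, |ρ| * 2 ^ κ ≤ 1 → |ρ| ≤ 1 / 2 := by
      intro ρ hρ
      nlinarith only [hκ1, hρ, abs_nonneg ρ]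
    -- bounds for the side variables
    have b1 : CH r V₁ Kc ≤ n * Real.log (2 * C₃ + 1) := by
      refine (CH_le_vec hr0 hr1 V₁ Kc (fun _ => C₃) ?_).trans (le_of_eq ?_)
      · intro ω ω' hω hω' hK a
        have hl : l j ω = l j ω' := (Prod.ext_iff.mp hK).1
        have ht : Tf L T (κ * m) ω = Tf L T (κ * m) ω' :=
          (Prod.ext_iff.mp (Prod.ext_iff.mp hK).2).2
        by_cases ha : a = j
        · simp only [hV₁]
          rw [ha]
          simp only [Function.update_self, sub_self, Int.cast_zero, abs_zero]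
          exact hC₃0
        · simp only [hV₁]
          rw [Function.update_of_ne ha, Function.update_of_ne ha]
          obtain ⟨ρ, e, hd, hρ, he⟩ := hdiff j ω ω' hω hω' hl a
          rw [if_neg ha] at hd
          have h1 : |(2 : ℝ) ^ (κ * (m + 1)) * xi ω a - 2 ^ (κ * (m + 1)) * xi ω' a| ≤
              1 + 2 * (n * C₀) := by
            have h2 : (2 : ℝ) ^ (κ * (m + 1)) * xi ω a - 2 ^ (κ * (m + 1)) * xi ω' a =
                2 ^ (κ * (m + 1)) * ((((T ω : ℝ) - T ω') / 2 ^ L) * ρ) +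
                  2 ^ (κ * (m + 1)) * e := by
              rw [← mul_sub, hd]
              ring
            rw [h2]
            refine (abs_add_le _ _).trans (add_le_add ?_ ?_)
            · rw [abs_mul, abs_mul, abs_of_nonneg (by positivity : (0 : ℝ) ≤ 2 ^ (κ * (m + 1))),
                hpow2]
              have h3 := htime ω ω' ht
              calc (2 : ℝ) ^ (κ * m) * 2 ^ κ * (|((T ω : ℝ) - T ω') / 2 ^ L| * |ρ|) =
                  (|((T ω : ℝ) - T ω') / 2 ^ L| * 2 ^ (κ * m)) * (|ρ| * 2 ^ κ) := by ring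
                _ ≤ 1 * 1 := mul_le_mul h3 hρ (by positivity) (by norm_num)
                _ = 1 := by norm_num
            · rw [abs_mul, abs_of_nonneg (by positivity : (0 : ℝ) ≤ 2 ^ (κ * (m + 1)))]
              exact herr e he
          have h4 := floor_diff h1
          simp only [hX]
          refine h4.trans ?_
          rw [hC₃]
          linarith only
      · rw [Ex_const hr1]
    have b2 : CH r V₂ Kc ≤ n * Real.log (2 * C₃ + 1) := by
      refine (CH_le_vec hr0 hr1 V₂ Kc (fun _ => C₃) ?_).trans (le_of_eq ?_)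
      · intro ω ω' hω hω' hK a
        have hl : l j ω = l j ω' := (Prod.ext_iff.mp hK).1
        have ht : Tf L T (κ * m) ω = Tf L T (κ * m) ω' :=
          (Prod.ext_iff.mp (Prod.ext_iff.mp hK).2).2
        obtain ⟨ρ, e, hd, hρ, he⟩ := hdiff j ω ω' hω hω' hl a
        have h1 : |(2 : ℝ) ^ (κ * m) * xi ω a - 2 ^ (κ * m) * xi ω' a| ≤
            2 + 2 * (n * C₀) := by
          have h2 : (2 : ℝ) ^ (κ * m) * xi ω a - 2 ^ (κ * m) * xi ω' a =
              2 ^ (κ * m) * ((((T ω : ℝ) - T ω') / 2 ^ L) * ((if a = j then 1 else 0) + ρ)) +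
                2 ^ (κ * m) * e := by
            rw [← mul_sub, hd]
            ring
          rw [h2]
          refine (abs_add_le _ _).trans (add_le_add ?_ ?_)
          · rw [abs_mul, abs_mul, abs_of_nonneg (by positivity : (0 : ℝ) ≤ 2 ^ (κ * m))]
            have h3 := htime ω ω' ht
            have h5 : |(if a = j then (1 : ℝ) else 0) + ρ| ≤ 2 := by
              have h6 := hrho ρ hρ
              have h7 : |(if a = j then (1 : ℝ) else 0)| ≤ 1 := by
                split_ifs <;> simp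
              linarith only [h6, h7, abs_add_le (if a = j then (1 : ℝ) else 0) ρ]
            calc (2 : ℝ) ^ (κ * m) * (|((T ω : ℝ) - T ω') / 2 ^ L| *
                |(if a = j then (1 : ℝ) else 0) + ρ|) =
                (|((T ω : ℝ) - T ω') / 2 ^ L| * 2 ^ (κ * m)) *
                  |(if a = j then (1 : ℝ) else 0) + ρ| := by ring
              _ ≤ 1 * 2 := mul_le_mul h3 h5 (abs_nonneg _) (by norm_num)
              _ = 2 := by norm_num
          · rw [abs_mul, abs_of_nonneg (by positivity : (0 : ℝ) ≤ 2 ^ (κ * m))]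
            exact (mul_le_mul_of_nonneg_right hκm (abs_nonneg e)).trans (herr e he)
        have h4 := floor_diff h1
        simp only [hV₂, hX]
        refine h4.trans ?_
        rw [hC₃]
        linarith only
      · rw [Ex_const hr1]
    have b3 : CH r (Tf L T (κ * (m + 1))) (fun ω => (U ω, Kc ω)) ≤ Real.log (2 * C₄ + 1) := by
      refine (CH_le_int hr0 hr1 (Tf L T (κ * (m + 1))) (fun ω => (U ω, Kc ω))
        (fun _ => C₄) ?_).trans (le_of_eq ?_)
      · intro ω ω' hω hω' hK
        have hUU : U ω = U ω' := (Prod.ext_iff.mp hK).1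
        have hK2 := (Prod.ext_iff.mp hK).2
        have hl : l j ω = l j ω' := (Prod.ext_iff.mp hK2).1
        obtain ⟨ρ, e, hd, hρ, he⟩ := hdiff j ω ω' hω hω' hl j
        rw [if_pos rfl] at hd
        have h1 := of_floor_eq (show ⌊(2 : ℝ) ^ (κ * (m + 1)) * xi ω j⌋ =
          ⌊(2 : ℝ) ^ (κ * (m + 1)) * xi ω' j⌋ from hUU)
        have h2 : (2 : ℝ) ^ (κ * (m + 1)) * xi ω j - 2 ^ (κ * (m + 1)) * xi ω' j =
            (2 ^ (κ * (m + 1)) * (((T ω : ℝ) - T ω') / 2 ^ L)) * (1 + ρ) +
              2 ^ (κ * (m + 1)) * e := by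
          rw [← mul_sub, hd]
          ring
        rw [h2] at h1
        have h3 : |(2 : ℝ) ^ (κ * (m + 1)) * e| ≤ 2 * (n * C₀) := by
          rw [abs_mul, abs_of_nonneg (by positivity : (0 : ℝ) ≤ 2 ^ (κ * (m + 1)))]
          exact herr e he
        have h4 : |(2 ^ (κ * (m + 1)) * (((T ω : ℝ) - T ω') / 2 ^ L)) * (1 + ρ)| ≤
            1 + 2 * (n * C₀) := by
          have h5 := abs_sub (2 ^ (κ * (m + 1)) * (((T ω : ℝ) - T ω') / 2 ^ L) * (1 + ρ) +
            2 ^ (κ * (m + 1)) * e) (2 ^ (κ * (m + 1)) * e)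
          rw [add_sub_cancel_right] at h5
          linarith only [h1, h3, h5]
        rw [abs_mul] at h4
        have h6 : (1 : ℝ) / 2 ≤ |1 + ρ| := by
          have h7 := hrho ρ hρ
          rw [abs_le] at h7
          rw [abs_of_nonneg (by linarith only [h7, h7.1])]
          linarith only [h7, h7.1]
        have h8 : |2 ^ (κ * (m + 1)) * (((T ω : ℝ) - T ω') / 2 ^ L)| ≤ 2 + 4 * (n * C₀) := by
          nlinarith only [h4, h6, hnC, abs_nonneg (2 ^ (κ * (m + 1)) * (((T ω : ℝ) - T ω') / 2 ^ L))]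
        have h9 : (2 : ℝ) ^ (κ * (m + 1)) * ((T ω : ℝ) / 2 ^ L) -
            2 ^ (κ * (m + 1)) * ((T ω' : ℝ) / 2 ^ L) =
            2 ^ (κ * (m + 1)) * (((T ω : ℝ) - T ω') / 2 ^ L) := by ring
        rw [← h9] at h8
        have h10 := floor_diff h8
        simp only [Tf]
        refine h10.trans ?_
        rw [hC₄]
        linarith only
      · rw [Ex_const hr1]
    -- assembly
    have a1 : CH r U (fun ω => ((V₁ ω, V₂ ω), Kc ω)) ≤
        CH r U (fun ω => (V₁ ω, (V₂ ω, c ω))) := by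
      refine CH_mono_cond hr0 ?_
      intro ω ω' _ _ h
      simp only [hKc, Prod.mk.injEq] at h ⊢
      tauto
    have a2 := CH_chain hr0 U (fun ω => (V₁ ω, V₂ ω)) Kc
    have a3 : CH r U Kc ≤ CH r (fun ω => (U ω, (V₁ ω, V₂ ω))) Kc :=
      CH_mono_left hr0 (fun _ _ _ _ h => (Prod.ext_iff.mp (Prod.ext_iff.mp h).1).1)
    have a4 := CH_subadd hr0 V₁ V₂ Kc
    have a5 := CH_chain hr0 (Tf L T (κ * (m + 1))) U Kc
    have a6 : CH r (Tf L T (κ * (m + 1))) Kc ≤
        CH r (fun ω => (Tf L T (κ * (m + 1)) ω, U ω)) Kc :=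
      CH_mono_left hr0 (fun _ _ _ _ h => (Prod.ext_iff.mp (Prod.ext_iff.mp h).1).1)
    linarith only [b1, b2, b3, a1, a2, a3, a4, a5, a6]
  -- telescoping
  have tel1 : ∀ m ≤ s, ∑ i ∈ range m, CH r (X (κ * (i + 1))) (fun ω => (X (κ * i) ω, c ω)) ≤
      CH r (X (κ * m)) c := by
    intro m
    induction m with
    | zero =>
      intro _
      simp only [Finset.range_zero, Finset.sum_empty]
      exact CH_nonneg hr0 _ _
    | succ m ih =>
      intro hm
      rw [Finset.sum_range_succ]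
      have h1 := ih (by omega)
      have h2 := CH_chain hr0 (X (κ * (m + 1))) (X (κ * m)) c
      have h3 : CH r (fun ω => (X (κ * (m + 1)) ω, X (κ * m) ω)) c = CH r (X (κ * (m + 1))) c := by
        refine (CH_congr hr0 ?_ ?_ (fun _ _ _ _ h => h) (fun _ _ _ _ h => h)).symm
        · intro ω ω' _ _ h
          have e : X (κ * (m + 1)) ω = X (κ * (m + 1)) ω' := (Prod.ext_iff.mp h).1
          refine Prod.ext e ?_
          funext a
          have ea := congrFun e a
          simp only [hX] at ea ⊢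
          have hk : κ * (m + 1) = κ * m + κ := by ring
          rw [hk] at ea
          exact floor_det ea
        · intro ω ω' _ _ h
          exact (Prod.ext_iff.mp (Prod.ext_iff.mp h).1).1
      linarith only [h1, h2, h3]
  have tel2 : ∀ j, ∀ m ≤ s, CH r (Tf L T (κ * m)) (fun ω => (l j ω, c ω)) ≤
      ∑ i ∈ range m, CH r (Tf L T (κ * (i + 1))) (fun ω => (l j ω, (c ω, Tf L T (κ * i) ω))) := by
    intro j m
    induction m with
    | zero =>
      intro _
      simp only [Finset.range_zero, Finset.sum_empty]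
      have : CH r (Tf L T (κ * 0)) (fun ω => (l j ω, c ω)) = 0 := by
        refine CH_eq_zero hr0 ?_
        intro ω ω' _ _ _
        simp only [Tf, mul_zero, pow_zero, one_mul]
        have h1 : ∀ v, ⌊(T v : ℝ) / 2 ^ L⌋ = 0 := by
          intro v
          rw [Int.floor_eq_zero_iff]
          constructor
          · positivity
          · rw [div_lt_one hM]
            exact_mod_cast hT v
        rw [h1, h1]
      rw [this]
    | succ m ih =>
      intro hm
      rw [Finset.sum_range_succ]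
      have h1 := ih (by omega)
      have h2 := CH_chain hr0 (Tf L T (κ * (m + 1))) (Tf L T (κ * m)) (fun ω => (l j ω, c ω))
      have h3 : CH r (Tf L T (κ * (m + 1))) (fun ω => (l j ω, c ω)) ≤
          CH r (fun ω => (Tf L T (κ * (m + 1)) ω, Tf L T (κ * m) ω))
            (fun ω => (l j ω, c ω)) :=
        CH_mono_left hr0 (fun _ _ _ _ h => (Prod.ext_iff.mp (Prod.ext_iff.mp h).1).1)
      have h4 : CH r (Tf L T (κ * (m + 1))) (fun ω => (Tf L T (κ * m) ω, (l j ω, c ω))) =
          CH r (Tf L T (κ * (m + 1))) (fun ω => (l j ω, (c ω, Tf L T (κ * m) ω))) := by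
        refine CH_congr hr0 (fun _ _ _ _ h => (Prod.ext_iff.mp h).1)
          (fun _ _ _ _ h => (Prod.ext_iff.mp h).1) ?_ ?_ <;>
        · intro ω ω' _ _ h
          simp only [Prod.mk.injEq] at h ⊢
          tauto
      linarith only [h1, h2, h3, h4]
  -- the last digits of the time
  have last : ∀ j, CH r T (fun ω => (l j ω, c ω)) ≤
      CH r (Tf L T (κ * s)) (fun ω => (l j ω, c ω)) + ((L - κ * s : ℝ) * Real.log 2 +
        Real.log 3) := by
    intro j
    have h1 := CH_chain hr0 TT (Tf L T (κ * s)) (fun ω => (l j ω, c ω))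
    have h2 : CH r T (fun ω => (l j ω, c ω)) ≤
        CH r (fun ω => (TT ω, Tf L T (κ * s) ω)) (fun ω => (l j ω, c ω)) := by
      refine CH_mono_left hr0 ?_
      intro ω ω' _ _ h
      have := (Prod.ext_iff.mp (Prod.ext_iff.mp h).1).1
      simp only [hTT] at this
      exact_mod_cast this
    have hsL : κ * s ≤ L := by omega
    have h3 : CH r TT (fun ω => (Tf L T (κ * s) ω, (l j ω, c ω))) ≤
        Ex r (fun _ => Real.log (2 * (2 : ℝ) ^ (L - κ * s) + 1)) := by
      refine CH_le_int hr0 hr1 _ _ _ ?_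
      intro ω ω' _ _ h
      have ht := of_floor_eq (show ⌊(2 : ℝ) ^ (κ * s) * ((T ω : ℝ) / 2 ^ L)⌋ =
        ⌊(2 : ℝ) ^ (κ * s) * ((T ω' : ℝ) / 2 ^ L)⌋ from (Prod.ext_iff.mp h).1)
      have hp : (2 : ℝ) ^ L = 2 ^ (L - κ * s) * 2 ^ (κ * s) := by
        rw [← pow_add]
        congr 1
        omega
      have e1 : (2 : ℝ) ^ (κ * s) * ((T ω : ℝ) / 2 ^ L) - 2 ^ (κ * s) * ((T ω' : ℝ) / 2 ^ L) =
          ((T ω : ℝ) - T ω') / 2 ^ (L - κ * s) := by
        rw [hp]
        field_simp
      rw [e1, abs_div, abs_of_nonneg (by positivity : (0 : ℝ) ≤ 2 ^ (L - κ * s)),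
        div_le_one (by positivity)] at ht
      simp only [hTT]
      push_cast
      exact ht
    rw [Ex_const hr1] at h3
    have h4 : Real.log (2 * (2 : ℝ) ^ (L - κ * s) + 1) ≤
        (L - κ * s : ℝ) * Real.log 2 + Real.log 3 := by
      have h5 : 2 * (2 : ℝ) ^ (L - κ * s) + 1 ≤ 2 ^ (L - κ * s) * 3 := by
        have : (1 : ℝ) ≤ 2 ^ (L - κ * s) := one_le_pow₀ (by norm_num)
        linarith only [this]
      refine (Real.log_le_log (by positivity) h5).trans (le_of_eq ?_)
      rw [Real.log_mul (by positivity) (by norm_num), Real.log_pow, Nat.cast_sub hsL]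
      push_cast
      ring
    linarith only [h1, h2, h3, h4]
  -- conclusion
  have hXY : CH r (X (κ * s)) c ≤ CH r Y c := by
    refine CH_mono_left hr0 ?_
    intro ω ω' _ _ h
    have e : Y ω = Y ω' := (Prod.ext_iff.mp h).1
    funext a
    simp only [hX, hxi]
    rw [e]
  have hsum : ∑ j, CH r (Tf L T (κ * s)) (fun ω => (l j ω, c ω)) ≤
      CH r (X (κ * s)) c + s * C₅ := by
    calc ∑ j, CH r (Tf L T (κ * s)) (fun ω => (l j ω, c ω)) ≤
        ∑ j, ∑ i ∈ range s, CH r (Tf L T (κ * (i + 1)))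
          (fun ω => (l j ω, (c ω, Tf L T (κ * i) ω))) :=
          Finset.sum_le_sum fun j _ => tel2 j s le_rfl
      _ = ∑ i ∈ range s, ∑ j, CH r (Tf L T (κ * (i + 1)))
          (fun ω => (l j ω, (c ω, Tf L T (κ * i) ω))) := Finset.sum_comm
      _ ≤ ∑ i ∈ range s, (CH r (X (κ * (i + 1))) (fun ω => (X (κ * i) ω, c ω)) + C₅) :=
          Finset.sum_le_sum fun i hi => block i (Finset.mem_range.mp hi)
      _ = ∑ i ∈ range s, CH r (X (κ * (i + 1))) (fun ω => (X (κ * i) ω, c ω)) + s * C₅ := by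
          rw [Finset.sum_add_distrib, Finset.sum_const, Finset.card_range, nsmul_eq_mul]
      _ ≤ CH r (X (κ * s)) c + s * C₅ := by
          have := tel1 s le_rfl
          linarith only [this]
  have hfin : ∑ j, CH r T (fun ω => (l j ω, c ω)) ≤
      ∑ j, CH r (Tf L T (κ * s)) (fun ω => (l j ω, c ω)) +
        n * ((L - κ * s : ℝ) * Real.log 2 + Real.log 3) := by
    have h1 := Finset.sum_le_sum (s := (univ : Finset (Fin n))) fun j _ => last j
    rw [Finset.sum_add_distrib, Finset.sum_const, Finset.card_univ, Fintype.card_fin,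
      nsmul_eq_mul] at h1
    exact h1
  have hl3' : 0 ≤ Real.log 3 := Real.log_nonneg (by norm_num)
  have hs0 : (0 : ℝ) ≤ s := Nat.cast_nonneg s
  nlinarith only [hC₅0, hXY, hsum, hfin, hs0, hn0, hl3', hXY, hsum, hfin, mul_nonneg hs0 (mul_nonneg hn0 hl3'), hC₅0]

end Pool.KS3
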