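import Pool.Agent.H45.KAL.GTI

/-!
# Plateau: two directions of noise

The block `X = (y, n)` of the position is nearly independent of the block `D` of the velocity, at
two times of the window. Then the law of `X` is nearly invariant under the translations
`g (d) - g (d')`. Either two of them are not parallel, and then the rows of `n` are full given
`y`, or the first components of the typical velocities are close together, or the typical
velocities are on one line of the plane.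
-/

set_option autoImplicit false

namespace Pool.KAL

open Finset Real
open Pool.Agent.H49.Ent Pool.Agent.H32.Dense Pool.STK Pool.KAF
open TI

/-- Cells of side `a`. -/
def cl2 (a : ℕ) (x : Fin 2 → ℤ) : Fin 2 → ℤ := fun k => x k / (a : ℤ)

/-- (PLT-a) Near invariance under two translations which are not parallel: the cells of side `a`
are full given the cells of side `B`. -/
def PLTAStmt : Prop :=
  ∀ (Ω U : Type) [Fintype Ω] (p : Ω → ℝ) (X : Ω → Fin 2 → ℤ) (V : Ω → U) (v₁ v₂ : Fin 2 → ℤ)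
    (a B M x : ℕ) (e : ℝ), IsLaw p → 0 < a → a ∣ B → 0 < B → 2 ≤ M → 2 * (M * x) ≤ B →
    (∀ k, |v₁ k| ≤ x) → (∀ k, |v₂ k| ≤ x) → 2 * ((a : ℤ) * x) < |v₁ 0 * v₂ 1 - v₁ 1 * v₂ 0| →
    0 ≤ e → TIV p X V v₁ e → TIV p X V v₂ e →
    (1 - 4 * (M * e)) * Real.log ((M : ℝ) ^ 2 / 2) - Real.log 9 ≤
      CH p (fun ω => cl2 a (X ω)) (fun ω => (cl2 B (X ω), V ω))

/-- (PLT-b) The same for the rows of the second coordinate given the first coordinate. -/
def PLTBStmt : Prop :=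
  ∀ (Ω U : Type) [Fintype Ω] (p : Ω → ℝ) (X : Ω → Fin 2 → ℤ) (V : Ω → U) (v₁ v₂ : Fin 2 → ℤ)
    (a B M x : ℕ) (e : ℝ), IsLaw p → 0 < a → a ∣ B → 0 < B → 2 ≤ M → 2 * (M * x) ≤ B →
    (∀ k, |v₁ k| ≤ x) → (∀ k, |v₂ k| ≤ x) → 2 * ((a : ℤ) * x) < |v₁ 0 * v₂ 1 - v₁ 1 * v₂ 0| →
    0 ≤ e → TIV p X V v₁ e → TIV p X V v₂ e →
    (1 - 4 * (M * e)) * Real.log ((M : ℝ) ^ 2 / 2) - Real.log 9 - Real.log ((B : ℝ) / a) ≤
      CH p (fun ω => X ω 1 / (a : ℤ)) (fun ω => (X ω 1 / (B : ℤ), (X ω 0 / (a : ℤ), V ω)))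

/-- (PLT-c) Alternative: full rows, inactive velocities, or one slope. The displacement of the
position due to the velocity block `d` is `g d`, equal to `θ d` up to `R`. Values of `D` of
probability at least `p₁` are typical. -/
def PLTCStmt : Prop :=
  ∀ (Ω U : Type) [Fintype Ω] (p : Ω → ℝ) (X : Ω → Fin 2 → ℤ) (V : Ω → U) (D : Ω → Fin 2 → ℤ)
    (g : (Fin 2 → ℤ) → Fin 2 → ℤ) (θ R p₁ e : ℝ) (a B M x Q₁ : ℕ), IsLaw p → 0 < a → a ∣ B →
    0 < B → 2 ≤ M → 2 * (M * x) ≤ B → 0 < θ → 0 ≤ R → 0 ≤ e → 0 < Q₁ →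
    (∀ d k, |(g d k : ℝ) - θ * d k| ≤ R) →
    (∀ d d', p₁ ≤ law p D d → p₁ ≤ law p D d' → ∀ k, |g d k - g d' k| ≤ x) →
    (∀ d d', p₁ ≤ law p D d → p₁ ≤ law p D d' → TIV p X V (g d - g d') e) →
    (1 - 4 * (M * e)) * Real.log ((M : ℝ) ^ 2 / 2) - Real.log 9 - Real.log ((B : ℝ) / a) ≤
      CH p (fun ω => X ω 1 / (a : ℤ)) (fun ω => (X ω 1 / (B : ℤ), (X ω 0 / (a : ℤ), V ω))) ∨
    (∀ d d', p₁ ≤ law p D d → p₁ ≤ law p D d' → |d 0 - d' 0| < Q₁) ∨
    ∃ s c : ℝ, ∀ d, p₁ ≤ law p D d →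
      |(d 1 : ℝ) - s * d 0 - c| ≤ (2 * (a * x) + 8 * (x * R) + 8 * R ^ 2) / (θ ^ 2 * Q₁)

/-- (PLT-s) Removal of the smoothing. -/
def PLTSStmt : Prop :=
  ∀ (Ω U : Type) [Fintype Ω] (p : Ω → ℝ) (X : Ω → Fin 2 → ℤ) (V : Ω → U) (a B N : ℕ), IsLaw p →
    0 < N → N ≤ a → a ≤ B →
    CH (smp 2 N p) (fun w => smX (N := N) X w 1 / (a : ℤ))
      (fun w => (smX (N := N) X w 1 / (B : ℤ), (smX (N := N) X w 0 / (a : ℤ), V w.1))) ≤
    CH p (fun ω => X ω 1 / (a : ℤ)) (fun ω => (X ω 1 / (B : ℤ), (X ω 0 / (a : ℤ), V ω))) +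
      3 * Real.log 2

theorem plta_thm : PLTAStmt := by
  classical
  intro Ω U _ p X V v₁ v₂ a B M x e hp ha haB hB hM hMx hv₁ hv₂ hdet he h₁ h₂
  obtain ⟨c, rfl⟩ := haB
  have haZ : (0 : ℤ) < a := by exact_mod_cast ha
  set J : Finset (ℕ × ℕ) := (range M) ×ˢ (range M) with hJ
  set h : ℕ × ℕ → Fin 2 → ℤ := fun j => j.1 • v₁ + j.2 • v₂ with hh
  have hcard : J.card = M * M := by rw [hJ, Finset.card_product, Finset.card_range]
  have hval : ∀ j k, h j k = (j.1 : ℤ) * v₁ k + (j.2 : ℤ) * v₂ k := by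
    intro j k
    show (j.1 • v₁ + j.2 • v₂) k = _
    rw [Pi.add_apply, Pi.smul_apply, Pi.smul_apply, nsmul_eq_mul, nsmul_eq_mul]
  have hM2 : (2 : ℝ) ≤ M := by exact_mod_cast hM
  have hI9 : (Fintype.piFinset fun _ : Fin 2 => Finset.Icc (-1 : ℤ) 1).card = 9 := by
    rw [Fintype.card_piFinset]
    simp
  have hentry : ∀ j ∈ J, ∀ k, |h j k| ≤ ((a * c : ℕ) : ℤ) := by
    intro j hj k
    rw [hJ, Finset.mem_product, Finset.mem_range, Finset.mem_range] at hj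
    rw [hval]
    have h1 : |(j.1 : ℤ) * v₁ k| ≤ M * x := by
      rw [abs_mul, abs_of_nonneg (Int.natCast_nonneg _)]
      exact mul_le_mul (by exact_mod_cast hj.1.le) (hv₁ k) (abs_nonneg _)
        (Int.natCast_nonneg _)
    have h2 : |(j.2 : ℤ) * v₂ k| ≤ M * x := by
      rw [abs_mul, abs_of_nonneg (Int.natCast_nonneg _)]
      exact mul_le_mul (by exact_mod_cast hj.2.le) (hv₂ k) (abs_nonneg _)
        (Int.natCast_nonneg _)
    have h3 : (2 * (M * x) : ℤ) ≤ ((a * c : ℕ) : ℤ) := by exact_mod_cast hMx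
    have h4 := abs_add_le ((j.1 : ℤ) * v₁ k) ((j.2 : ℤ) * v₂ k)
    linarith
  have hmain := gti_thm hp X V J h (fun g => cl2 a g) (fun g => cl2 (a * c) g)
    (fun s k => s k / (c : ℤ)) (by
      intro g
      funext k
      simp only [cl2]
      push_cast
      rw [Int.ediv_ediv_of_nonneg haZ.le])
    (Fintype.piFinset fun _ => Finset.Icc (-1 : ℤ) 1) (by
      rw [Fintype.mem_piFinset]
      intro k
      rw [Finset.mem_Icc]
      constructor <;> simp) 1 (2 * (M * e))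
    (by
      intro j hj
      rw [hJ, Finset.mem_product, Finset.mem_range, Finset.mem_range] at hj
      have t1 := (ti2_thm Ω U (Fin 2 → ℤ) p X V v₁ v₁ e e h₁ h₁).2.2 j.1
      have t2 := (ti2_thm Ω U (Fin 2 → ℤ) p X V v₂ v₂ e e h₂ h₂).2.2 j.2
      have t3 := (ti2_thm Ω U (Fin 2 → ℤ) p X V _ _ _ _ t1 t2).1
      intro E
      refine (t3 E).trans ?_
      have a1 : (j.1 : ℝ) * e ≤ M * e :=
        mul_le_mul_of_nonneg_right (by exact_mod_cast hj.1.le) he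
      have a2 : (j.2 : ℝ) * e ≤ M * e :=
        mul_le_mul_of_nonneg_right (by exact_mod_cast hj.2.le) he
      linarith)
    (by
      intro g s J' _ hJ'
      rw [Finset.card_le_one]
      intro j hj0 j' hj0'
      have hj := hJ' j hj0
      have hj' := hJ' j' hj0'
      -- the difference of the translations is less than `a`
      have hd : ∀ k, |h j k - h j' k| ≤ (a : ℤ) := by
        intro k
        have e1 : (g k + h j k) / (a : ℤ) = (g k + h j' k) / (a : ℤ) := by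
          have := congrFun (hj.trans hj'.symm) k
          simpa only [cl2, Pi.add_apply] using this
        have e2 := Int.emod_add_mul_ediv (g k + h j k) a
        have e3 := Int.emod_add_mul_ediv (g k + h j' k) a
        have e4 := Int.emod_nonneg (g k + h j k) haZ.ne'
        have e5 := Int.emod_nonneg (g k + h j' k) haZ.ne'
        have e6 := Int.emod_lt_of_pos (g k + h j k) haZ
        have e7 := Int.emod_lt_of_pos (g k + h j' k) haZ
        rw [e1] at e2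
        rw [abs_le]
        constructor <;> linarith
      set d1 : ℤ := (j.1 : ℤ) - j'.1 with hd1
      set d2 : ℤ := (j.2 : ℤ) - j'.2 with hd2
      have hk : ∀ k, h j k - h j' k = d1 * v₁ k + d2 * v₂ k := by
        intro k
        rw [hval, hval, hd1, hd2]
        ring
      have c1 : d1 * (v₁ 0 * v₂ 1 - v₁ 1 * v₂ 0) =
          (h j 0 - h j' 0) * v₂ 1 - (h j 1 - h j' 1) * v₂ 0 := by
        rw [hk 0, hk 1]
        ring
      have c2 : d2 * (v₁ 0 * v₂ 1 - v₁ 1 * v₂ 0) =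
          (h j 1 - h j' 1) * v₁ 0 - (h j 0 - h j' 0) * v₁ 1 := by
        rw [hk 0, hk 1]
        ring
      have bnd : ∀ u w : Fin 2 → ℤ, (∀ k, |u k| ≤ (a : ℤ)) → (∀ k, |w k| ≤ (x : ℤ)) →
          ∀ k l k' l', |u k * w l - u k' * w l'| ≤ 2 * ((a : ℤ) * x) := by
        intro u w hu hw k l k' l'
        have b1 : |u k * w l| ≤ (a : ℤ) * x := by
          rw [abs_mul]
          exact mul_le_mul (hu k) (hw l) (abs_nonneg _) haZ.le
        have b2 : |u k' * w l'| ≤ (a : ℤ) * x := by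
          rw [abs_mul]
          exact mul_le_mul (hu k') (hw l') (abs_nonneg _) haZ.le
        rw [abs_le] at b1 b2 ⊢
        constructor <;> linarith [b1.1, b1.2, b2.1, b2.2]
      have z1 : d1 = 0 := by
        by_contra hne
        have b := bnd (fun k => h j k - h j' k) v₂ hd hv₂ 0 1 1 0
        rw [← c1, abs_mul] at b
        have : 1 ≤ |d1| := Int.one_le_abs hne
        nlinarith [abs_nonneg (v₁ 0 * v₂ 1 - v₁ 1 * v₂ 0)]
      have z2 : d2 = 0 := by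
        by_contra hne
        have b := bnd (fun k => h j k - h j' k) v₁ hd hv₁ 1 0 0 1
        rw [← c2, abs_mul] at b
        have : 1 ≤ |d2| := Int.one_le_abs hne
        nlinarith [abs_nonneg (v₁ 0 * v₂ 1 - v₁ 1 * v₂ 0)]
      refine Prod.ext ?_ ?_
      · have : (j.1 : ℤ) = j'.1 := by linarith
        exact_mod_cast this
      · have : (j.2 : ℤ) = j'.2 := by linarith
        exact_mod_cast this)
    (by
      intro g j hj
      rw [Fintype.mem_piFinset]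
      intro k
      have hBZ : (0 : ℤ) < ((a * c : ℕ) : ℤ) := by exact_mod_cast hB
      have h1 := abs_le.mp (hentry j hj k)
      simp only [cl2, Pi.sub_apply, Pi.add_apply]
      rw [Finset.mem_Icc]
      have l1 : (g k + h j k) / ((a * c : ℕ) : ℤ) ≤ g k / ((a * c : ℕ) : ℤ) + 1 := by
        have : g k / ((a * c : ℕ) : ℤ) + 1 = (g k + 1 * ((a * c : ℕ) : ℤ)) / ((a * c : ℕ) : ℤ) := by
          rw [Int.add_mul_ediv_right _ _ hBZ.ne']
        rw [this]
        exact Int.ediv_le_ediv hBZ (by linarith)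
      have l2 : g k / ((a * c : ℕ) : ℤ) + (-1) ≤ (g k + h j k) / ((a * c : ℕ) : ℤ) := by
        have : g k / ((a * c : ℕ) : ℤ) + (-1) =
            (g k + (-1) * ((a * c : ℕ) : ℤ)) / ((a * c : ℕ) : ℤ) := by
          rw [Int.add_mul_ediv_right _ _ hBZ.ne']
        rw [this]
        exact Int.ediv_le_ediv hBZ (by linarith)
      constructor <;> linarith)
    (by norm_num) (by
      rw [hcard]
      nlinarith)
  rw [hI9, hcard] at hmain
  refine le_trans (le_of_eq ?_) hmain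
  congr 1
  · congr 1
    · ring
    · congr 1
      push_cast
      ring

theorem pltb_thm : PLTBStmt := by
  classical
  intro Ω U _ p X V v₁ v₂ a B M x e hp ha haB hB hM hMx hv₁ hv₂ hdet he h₁ h₂
  have hmain := plta_thm Ω U p X V v₁ v₂ a B M x e hp ha haB hB hM hMx hv₁ hv₂ hdet he h₁ h₂
  have hp0 := hp.nonneg
  obtain ⟨c, rfl⟩ := haB
  have haZ : (0 : ℤ) < a := by exact_mod_cast ha
  have ha0 : (0 : ℝ) < a := by exact_mod_cast ha
  have hc : 0 < c := Nat.pos_of_mul_pos_left hB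
  have hcZ : (0 : ℤ) < c := by exact_mod_cast hc
  have s1 : CH p (fun ω => cl2 a (X ω)) (fun ω => (cl2 (a * c) (X ω), V ω)) =
      CH p (fun ω => (X ω 1 / (a : ℤ), X ω 0 / (a : ℤ)))
        (fun ω => (cl2 (a * c) (X ω), V ω)) := by
    refine CH_congr hp0 ?_ ?_ (fun _ _ _ _ h => h) (fun _ _ _ _ h => h)
    · intro ω ω' _ _ h
      have h1 : cl2 a (X ω) = cl2 a (X ω') := (Prod.ext_iff.mp h).1
      exact Prod.ext (congrFun h1 1) (congrFun h1 0)
    · intro ω ω' _ _ h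
      have h1 := (Prod.ext_iff.mp h).1
      have h2 := Prod.ext_iff.mp h1
      funext k
      fin_cases k
      · exact h2.2
      · exact h2.1
  have s2 := CH_chain hp0 (fun ω => X ω 1 / (a : ℤ)) (fun ω => X ω 0 / (a : ℤ))
    (fun ω => (cl2 (a * c) (X ω), V ω))
  have s3 : CH p (fun ω => X ω 1 / (a : ℤ)) (fun ω => (X ω 0 / (a : ℤ), (cl2 (a * c) (X ω), V ω))) ≤
      CH p (fun ω => X ω 1 / (a : ℤ))
        (fun ω => (X ω 1 / ((a * c : ℕ) : ℤ), (X ω 0 / (a : ℤ), V ω))) := by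
    refine CH_mono_cond hp0 ?_
    intro ω ω' _ _ h
    have h1 := (Prod.ext_iff.mp h).1
    have h2 := Prod.ext_iff.mp (Prod.ext_iff.mp h).2
    have h3 : cl2 (a * c) (X ω) = cl2 (a * c) (X ω') := h2.1
    exact Prod.ext (congrFun h3 1) (Prod.ext h1 h2.2)
  have s4 : CH p (fun ω => X ω 0 / (a : ℤ)) (fun ω => (cl2 (a * c) (X ω), V ω)) ≤
      Real.log (((a * c : ℕ) : ℝ) / a) := by
    have t1 := CH_le_card hp0 hp.sum_one (fun ω => X ω 0 / (a : ℤ))
      (fun ω => (cl2 (a * c) (X ω), V ω))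
      (fun t => Finset.Ico (t.1 0 * (c : ℤ)) (t.1 0 * (c : ℤ) + c)) (by
        intro ω _
        rw [Finset.mem_Ico]
        simp only [cl2]
        have e0 : X ω 0 / ((a * c : ℕ) : ℤ) = X ω 0 / (a : ℤ) / (c : ℤ) := by
          push_cast
          rw [Int.ediv_ediv_of_nonneg haZ.le]
        rw [e0]
        have e2 := Int.emod_add_mul_ediv (X ω 0 / (a : ℤ)) c
        have e4 := Int.emod_nonneg (X ω 0 / (a : ℤ)) hcZ.ne'
        have e6 := Int.emod_lt_of_pos (X ω 0 / (a : ℤ)) hcZ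
        constructor <;> nlinarith)
    refine t1.trans (le_of_eq ?_)
    have t2 : (fun ω => Real.log ((Finset.Ico ((cl2 (a * c) (X ω), V ω).1 0 * (c : ℤ))
        ((cl2 (a * c) (X ω), V ω).1 0 * (c : ℤ) + c)).card : ℝ)) = fun _ => Real.log (c : ℝ) := by
      funext ω
      rw [Int.card_Ico]
      congr 1
      have : ((cl2 (a * c) (X ω), V ω).1 0 * (c : ℤ) + c -
          (cl2 (a * c) (X ω), V ω).1 0 * (c : ℤ)).toNat = c := by
        rw [add_sub_cancel_left]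
        simp
      rw [this]
    rw [t2, Ex_const hp.sum_one]
    congr 1
    push_cast
    field_simp
  linarith

theorem pltc_thm : PLTCStmt := by
  classical
  intro Ω U _ p X V D g θ R p₁ e a B M x Q₁ hp ha haB hB hM hMx hθ hR he hQ₁ hg hx hT
  by_cases hfull : (1 - 4 * (M * e)) * Real.log ((M : ℝ) ^ 2 / 2) - Real.log 9 -
      Real.log ((B : ℝ) / a) ≤
      CH p (fun ω => X ω 1 / (a : ℤ)) (fun ω => (X ω 1 / (B : ℤ), (X ω 0 / (a : ℤ), V ω)))
  · exact Or.inl hfull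
  right
  by_cases hin : ∀ d d', p₁ ≤ law p D d → p₁ ≤ law p D d' → |d 0 - d' 0| < Q₁
  · exact Or.inl hin
  right
  push Not at hin
  obtain ⟨d₂, d₃, h₂, h₃, h₂₃⟩ := hin
  -- determinants
  have hdet : ∀ d, p₁ ≤ law p D d →
      |(g d - g d₃) 0 * (g d₂ - g d₃) 1 - (g d - g d₃) 1 * (g d₂ - g d₃) 0| ≤
        2 * ((a : ℤ) * x) := by
    intro d hd
    by_contra hcon
    push Not at hcon
    exact hfull (pltb_thm Ω U p X V (g d - g d₃) (g d₂ - g d₃) a B M x e hp ha haB hB hM hMx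
      (fun k => hx d d₃ hd h₃ k) (fun k => hx d₂ d₃ h₂ h₃ k) hcon he (hT d d₃ hd h₃)
      (hT d₂ d₃ h₂ h₃))
  have hQ : (0 : ℝ) < Q₁ := by exact_mod_cast hQ₁
  have hom : (Q₁ : ℝ) ≤ |(d₂ 0 : ℝ) - d₃ 0| := by
    have : (Q₁ : ℤ) ≤ |d₂ 0 - d₃ 0| := h₂₃
    have h1 : ((Q₁ : ℤ) : ℝ) ≤ ((|d₂ 0 - d₃ 0| : ℤ) : ℝ) := by exact_mod_cast this
    push_cast at h1
    exact h1
  have hom0 : (d₂ 0 : ℝ) - d₃ 0 ≠ 0 := by
    intro h0
    rw [h0, abs_zero] at hom
    linarith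
  refine ⟨((d₂ 1 : ℝ) - d₃ 1) / ((d₂ 0 : ℝ) - d₃ 0),
    (d₃ 1 : ℝ) - ((d₂ 1 : ℝ) - d₃ 1) / ((d₂ 0 : ℝ) - d₃ 0) * d₃ 0, ?_⟩
  intro d hd
  -- the determinant of the velocities
  have e1 : (d 1 : ℝ) - ((d₂ 1 : ℝ) - d₃ 1) / ((d₂ 0 : ℝ) - d₃ 0) * d 0 -
      ((d₃ 1 : ℝ) - ((d₂ 1 : ℝ) - d₃ 1) / ((d₂ 0 : ℝ) - d₃ 0) * d₃ 0) =
      -(((d 0 : ℝ) - d₃ 0) * ((d₂ 1 : ℝ) - d₃ 1) - ((d 1 : ℝ) - d₃ 1) * ((d₂ 0 : ℝ) - d₃ 0)) /
        ((d₂ 0 : ℝ) - d₃ 0) := by
    field_simp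
    ring
  rw [e1, abs_div, abs_neg]
  set Δ : ℝ := ((d 0 : ℝ) - d₃ 0) * ((d₂ 1 : ℝ) - d₃ 1) -
    ((d 1 : ℝ) - d₃ 1) * ((d₂ 0 : ℝ) - d₃ 0) with hΔ
  have hθΔ : θ ^ 2 * |Δ| ≤ 2 * (a * x) + 8 * (x * R) + 8 * R ^ 2 := by
    -- approximations
    set v : Fin 2 → ℝ := fun k => ((g d k : ℝ) - g d₃ k) with hv
    set w : Fin 2 → ℝ := fun k => ((g d₂ k : ℝ) - g d₃ k) with hw
    have hvb : ∀ k, |v k| ≤ x := by
      intro k
      have := hx d d₃ hd h₃ k
      simp only [hv]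
      have h1 : ((|g d k - g d₃ k| : ℤ) : ℝ) ≤ ((x : ℤ) : ℝ) := by exact_mod_cast this
      push_cast at h1
      exact h1
    have hwb : ∀ k, |w k| ≤ x := by
      intro k
      have := hx d₂ d₃ h₂ h₃ k
      simp only [hw]
      have h1 : ((|g d₂ k - g d₃ k| : ℤ) : ℝ) ≤ ((x : ℤ) : ℝ) := by exact_mod_cast this
      push_cast at h1
      exact h1
    have hve : ∀ k, |θ * ((d k : ℝ) - d₃ k) - v k| ≤ 2 * R := by
      intro k
      have h1 := hg d k
      have h2 := hg d₃ k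
      simp only [hv]
      rw [abs_le] at h1 h2 ⊢
      constructor <;> linarith [h1.1, h1.2, h2.1, h2.2]
    have hwe : ∀ k, |θ * ((d₂ k : ℝ) - d₃ k) - w k| ≤ 2 * R := by
      intro k
      have h1 := hg d₂ k
      have h2 := hg d₃ k
      simp only [hw]
      rw [abs_le] at h1 h2 ⊢
      constructor <;> linarith [h1.1, h1.2, h2.1, h2.2]
    have hdv : |v 0 * w 1 - v 1 * w 0| ≤ 2 * (a * x) := by
      have h1 := hdet d hd
      simp only [Pi.sub_apply] at h1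
      have h2 : ((|(g d 0 - g d₃ 0) * (g d₂ 1 - g d₃ 1) -
          (g d 1 - g d₃ 1) * (g d₂ 0 - g d₃ 0)| : ℤ) : ℝ) ≤ ((2 * ((a : ℤ) * x) : ℤ) : ℝ) := by
        exact_mod_cast h1
      push_cast at h2
      simp only [hv, hw]
      exact h2
    -- exact formula
    set ε : Fin 2 → ℝ := fun k => θ * ((d k : ℝ) - d₃ k) - v k with hε
    set η : Fin 2 → ℝ := fun k => θ * ((d₂ k : ℝ) - d₃ k) - w k with hη
    have hform : θ ^ 2 * Δ = (v 0 * w 1 - v 1 * w 0) + (v 0 * η 1 - v 1 * η 0) +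
        (ε 0 * w 1 - ε 1 * w 0) + (ε 0 * η 1 - ε 1 * η 0) := by
      simp only [hε, hη, hΔ]
      ring
    have hx0 : (0 : ℝ) ≤ x := Nat.cast_nonneg x
    have bnd : ∀ (A B : ℝ) (u u' : Fin 2 → ℝ), 0 ≤ A → (∀ k, |u k| ≤ A) → (∀ k, |u' k| ≤ B) →
        |u 0 * u' 1 - u 1 * u' 0| ≤ 2 * (A * B) := by
      intro A B u u' hA hu hu'
      have b1 : |u 0 * u' 1| ≤ A * B := by
        rw [abs_mul]
        exact mul_le_mul (hu 0) (hu' 1) (abs_nonneg _) hA
      have b2 : |u 1 * u' 0| ≤ A * B := by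
        rw [abs_mul]
        exact mul_le_mul (hu 1) (hu' 0) (abs_nonneg _) hA
      rw [abs_le] at b1 b2 ⊢
      constructor <;> linarith [b1.1, b1.2, b2.1, b2.2]
    have c1 := bnd x (2 * R) v η hx0 hvb hwe
    have c2 := bnd (2 * R) x ε w (by linarith) hve hwb
    have c3 := bnd (2 * R) (2 * R) ε η (by linarith) hve hwe
    have hθ2 : θ ^ 2 * |Δ| = |θ ^ 2 * Δ| := by
      rw [abs_mul, abs_of_nonneg (sq_nonneg θ)]
    rw [hθ2, hform]
    have t1 := abs_add_le ((v 0 * w 1 - v 1 * w 0) + (v 0 * η 1 - v 1 * η 0) +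
        (ε 0 * w 1 - ε 1 * w 0)) (ε 0 * η 1 - ε 1 * η 0)
    have t2 := abs_add_le ((v 0 * w 1 - v 1 * w 0) + (v 0 * η 1 - v 1 * η 0))
        (ε 0 * w 1 - ε 1 * w 0)
    have t3 := abs_add_le (v 0 * w 1 - v 1 * w 0) (v 0 * η 1 - v 1 * η 0)
    nlinarith
  have hθp : 0 < θ ^ 2 := by positivity
  rw [div_le_div_iff₀ (lt_of_lt_of_le hQ hom) (by positivity)]
  have hS : 0 ≤ 2 * ((a : ℝ) * x) + 8 * (x * R) + 8 * R ^ 2 := by positivity
  calc |Δ| * (θ ^ 2 * Q₁) = (θ ^ 2 * |Δ|) * Q₁ := by ring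
    _ ≤ (2 * (a * x) + 8 * (x * R) + 8 * R ^ 2) * |(d₂ 0 : ℝ) - d₃ 0| :=
        mul_le_mul hθΔ hom hQ.le hS

lemma smp_marg {Ω : Type} [Fintype Ω] (p : Ω → ℝ) {d N : ℕ} (hN : 0 < N) :
    Marg (smp d N p) p (fun w => w.1) := by
  classical
  intro ω
  rw [Fintype.sum_prod_type, Finset.sum_eq_single ω]
  · simp only [if_true, smp]
    rw [Finset.sum_const, Finset.card_univ, Fintype.card_fun, Fintype.card_fin, Fintype.card_fin,
      nsmul_eq_mul]
    have : (N : ℝ) ^ d ≠ 0 := by positivity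
    push_cast
    field_simp
  · intro b _ hb
    refine Finset.sum_eq_zero fun f _ => ?_
    exact if_neg hb
  · intro h
    exact absurd (Finset.mem_univ _) h

lemma smp_isLaw {Ω : Type} [Fintype Ω] {p : Ω → ℝ} (hp : IsLaw p) {d N : ℕ} (hN : 0 < N) :
    IsLaw (smp d N p) :=
  ⟨fun w => div_nonneg (hp.nonneg _) (by positivity), by
    rw [(smp_marg p hN).sum]
    exact hp.sum_one⟩

lemma ediv_near {x n : ℤ} {a : ℤ} (ha : 0 < a) (h0 : 0 ≤ n) (h1 : n < a) :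
    x / a ≤ (x + n) / a ∧ (x + n) / a ≤ x / a + 1 := by
  refine ⟨Int.ediv_le_ediv ha (by linarith), ?_⟩
  have : x / a + 1 = (x + 1 * a) / a := by rw [Int.add_mul_ediv_right _ _ ha.ne']
  rw [this]
  exact Int.ediv_le_ediv ha (by linarith)

theorem plts_thm : PLTSStmt := by
  classical
  intro Ω U _ p X V a B N hp hN hNa haB
  have hq := smp_isLaw hp (d := 2) hN
  have hq0 := hq.nonneg
  have hm := smp_marg p (d := 2) hN
  have ha : (0 : ℤ) < a := by
    have : 0 < a := by omega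
    exact_mod_cast this
  have hB : (0 : ℤ) < B := by
    have : 0 < B := by omega
    exact_mod_cast this
  set A' : Ω × (Fin 2 → Fin N) → ℤ := fun w => smX (N := N) X w 1 / (a : ℤ) with hA'
  set A : Ω × (Fin 2 → Fin N) → ℤ := fun w => X w.1 1 / (a : ℤ) with hA
  set C' : Ω × (Fin 2 → Fin N) → ℤ × (ℤ × U) := fun w =>
    (smX (N := N) X w 1 / (B : ℤ), (smX (N := N) X w 0 / (a : ℤ), V w.1)) with hC'
  set C : Ω × (Fin 2 → Fin N) → ℤ × (ℤ × U) := fun w =>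
    (X w.1 1 / (B : ℤ), (X w.1 0 / (a : ℤ), V w.1)) with hC
  have hn : ∀ (w : Ω × (Fin 2 → Fin N)) k, (0 : ℤ) ≤ ((w.2 k : ℕ) : ℤ) ∧
      ((w.2 k : ℕ) : ℤ) < a ∧ ((w.2 k : ℕ) : ℤ) < B := by
    intro w k
    have h1 := (w.2 k).isLt
    refine ⟨Int.natCast_nonneg _, ?_, ?_⟩
    · have : (w.2 k : ℕ) < a := by omega
      exact_mod_cast this
    · have : (w.2 k : ℕ) < B := by omega
      exact_mod_cast this
  have h1 := CH_le_add hq0 A' A C'
  have h2 := CH_le_add hq0 A C C'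
  have h3 : CH (smp 2 N p) A' (fun w => (A w, C' w)) ≤ Real.log 2 := by
    have t := CH_le_card hq0 hq.sum_one A' (fun w => (A w, C' w))
      (fun t => Finset.Icc t.1 (t.1 + 1)) (by
        intro w _
        obtain ⟨a0, a1, _⟩ := hn w 1
        have := ediv_near (x := X w.1 1) ha a0 a1
        rw [Finset.mem_Icc]
        exact this)
    refine t.trans (le_of_eq ?_)
    have e : (fun w => Real.log ((Finset.Icc (A w, C' w).1 ((A w, C' w).1 + 1)).card : ℝ)) =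
        fun _ => Real.log 2 := by
      funext w
      rw [Int.card_Icc]
      have : ((A w, C' w).1 + 1 + 1 - (A w, C' w).1).toNat = 2 := by
        have h : (A w, C' w).1 + 1 + 1 - (A w, C' w).1 = 2 := by ring
        rw [h]
        rfl
      rw [this]
      norm_num
    rw [e, Ex_const hq.sum_one]
  have h4 : CH (smp 2 N p) C C' ≤ 2 * Real.log 2 := by
    have t := CH_le_card hq0 hq.sum_one C C'
      (fun t => Finset.Icc (t.1 - 1) t.1 ×ˢ (Finset.Icc (t.2.1 - 1) t.2.1 ×ˢ {t.2.2})) (by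
        intro w _
        obtain ⟨a0, _, a2⟩ := hn w 1
        obtain ⟨b0, b1, _⟩ := hn w 0
        have c1 := ediv_near (x := X w.1 1) hB a0 a2
        have c2 := ediv_near (x := X w.1 0) ha b0 b1
        rw [Finset.mem_product, Finset.mem_product, Finset.mem_Icc, Finset.mem_Icc,
          Finset.mem_singleton]
        simp only [hC, hC', smX]
        exact ⟨⟨by linarith [c1.1, c1.2], c1.1⟩, ⟨by linarith [c2.1, c2.2], c2.1⟩, trivial⟩)
    refine t.trans (le_of_eq ?_)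
    have e : (fun w => Real.log ((Finset.Icc ((C' w).1 - 1) (C' w).1 ×ˢ
        (Finset.Icc ((C' w).2.1 - 1) (C' w).2.1 ×ˢ {(C' w).2.2})).card : ℝ)) =
        fun _ => 2 * Real.log 2 := by
      funext w
      have hz : ∀ z : ℤ, (Finset.Icc (z - 1) z).card = 2 := by
        intro z
        rw [Int.card_Icc]
        have h : z + 1 - (z - 1) = 2 := by ring
        rw [h]
        rfl
      rw [Finset.card_product, Finset.card_product, hz, hz, Finset.card_singleton]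
      have : ((2 * (2 * 1) : ℕ) : ℝ) = 2 ^ 2 := by norm_num
      rw [this, Real.log_pow]
      norm_num
    rw [e, Ex_const hq.sum_one]
  have h5 : CH (smp 2 N p) A (fun w => (C w, C' w)) ≤ CH (smp 2 N p) A C :=
    CH_mono_cond hq0 (fun _ _ _ _ h => (Prod.ext_iff.mp h).1)
  have h6 : CH (smp 2 N p) A C = CH p (fun ω => X ω 1 / (a : ℤ))
      (fun ω => (X ω 1 / (B : ℤ), (X ω 0 / (a : ℤ), V ω))) :=
    hm.CH (fun ω => X ω 1 / (a : ℤ)) (fun ω => (X ω 1 / (B : ℤ), (X ω 0 / (a : ℤ), V ω)))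
  linarith

/-- (PLT-d) Two typical velocities whose difference has the slope `z` up to `ρ` (mates at an exact
point) determine the slope: `z` is close to `s`. -/
theorem pltd_thm (s c z Δ ρ m₀ : ℝ) (d d' : Fin 2 → ℤ) (hm : 0 < m₀)
    (h : |(d 1 : ℝ) - s * d 0 - c| ≤ Δ) (h' : |(d' 1 : ℝ) - s * d' 0 - c| ≤ Δ)
    (hz : |((d 1 : ℝ) - d' 1) - z * ((d 0 : ℝ) - d' 0)| ≤ ρ)
    (hom : m₀ ≤ |(d 0 : ℝ) - d' 0|) : |s - z| ≤ (2 * Δ + ρ) / m₀ := by
  rw [le_div_iff₀ hm]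
  have e1 : (s - z) * ((d 0 : ℝ) - d' 0) = (((d 1 : ℝ) - d' 1) - z * ((d 0 : ℝ) - d' 0)) -
      ((d 1 : ℝ) - s * d 0 - c) + ((d' 1 : ℝ) - s * d' 0 - c) := by ring
  have e2 : |(s - z) * ((d 0 : ℝ) - d' 0)| ≤ 2 * Δ + ρ := by
    rw [e1]
    rw [abs_le] at h h' hz ⊢
    constructor <;> linarith [h.1, h.2, h'.1, h'.2, hz.1, hz.2]
  rw [abs_mul] at e2
  exact (mul_le_mul_of_nonneg_left hom (abs_nonneg _)).trans e2

end Pool.KAL
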